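import Mathlib
import Pool.Agent.H74.R45.Wa
import Pool.Agent.H74.R45.SPot
import Pool.Agent.Q1.M6f.GlueHol
import Pool.Agent.Q1.M6e.ThmC

set_option autoImplicit false
open Finset

/-!
# 45 degree rectangles: the exact output of the chapters A, B, C used in the final assembly

`AB45` (chapters A and B), `C45` (chapter C), `N45`, `M45` (chapter C at real weights), `DL45`
(displacement of the mark at NW).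
-/

namespace Pool.Agent.H95.R45

open Pool.Agent.H75.Perc Pool.Agent.H75.TwoArm Pool.Agent.Q1 Pool.Agent.H33.Q1
open Pool.Agent.H74.R45 Pool.Agent.H64.Q1 Pool.Agent.Q1.M6f.Glue Pool.Agent.H25.Q1.Close
open Pool.Agent.Q1.M6f
open Pool.Agent.Q1.M6e (OFar Inn inc2)

/-- The rectangle `[0, w] × [0, h]` with the outside `O` has size `R`, up to factors `η`. -/
structure Sc (η : ℝ) (R : ℕ) {w h : ℤ} (O : Out w h) : Prop where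
  w1 : η * R ≤ w
  w2 : (w : ℝ) ≤ R / η
  h1 : η * R ≤ h
  h2 : (h : ℝ) ≤ R / η
  root : RootOut O
  far : OFar O ⌊η * R⌋

/-- potential of the environment `0` (`top = false`, on `[0, w] × [0, h]`) or `h` (`top = true`, on
`[0, w] × [-1, h-1]`) with the weights `a`, `b` -/
def PotJ {w h : ℤ} (O : Out w h) (top : Bool) (a b : ℂ) (H : ℤ → ℤ → ℂ) : Prop :=
  Pot (FJ O a b (if top then h else 0)) H 0 w (if top then -1 else 0) (if top then h - 1 else h)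

/-- **Chapters A and B**: at the rapidity `log (ρ R)` the difference of the potentials of the lower and
the upper environment is constant up to `o (R ^ (2/3))`, in the even rows. -/
def AB45 : Prop :=
  ∀ η : ℝ, 0 < η → ∃ ρ1 : ℝ, 0 < ρ1 ∧ ∀ ρ : ℝ, 0 < ρ → ρ < ρ1 → ∀ ε : ℝ, 0 < ε → ∃ R0 : ℕ,
    ∀ R : ℕ, R0 ≤ R → ∀ (w h : ℤ) (O : Out w h), Sc η R O → ∀ t : ℝ, |t| ≤ 1 → ∀ Hl Hu : ℤ → ℤ → ℂ,
    PotJ O false (wa (rap ⌊ρ * R⌋₊ t)) (wa (rap ⌊ρ * R⌋₊ t + Real.pi / 2)) Hl →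
    PotJ O true (wa (rap ⌊ρ * R⌋₊ t)) (wa (rap ⌊ρ * R⌋₊ t + Real.pi / 2)) Hu →
    ∀ p q : ℤ × ℤ, p.2 % 2 = 0 → q.2 % 2 = 0 → Inn w h (η * R) p → Inn w h (η * R) q →
    ‖inc2 Hl p q - inc2 Hu (p.1, p.2 - 1) (q.1, q.2 - 1)‖ ≤ ε * (R : ℝ) ^ (2 / 3 : ℝ)

/-- **Chapter C**: linear response to the ties. The function `G` may depend on everything except the
outside `O`, the environment (`top`), the size `w, h` and the points. -/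
def C45 : Prop :=
  ∀ η : ℝ, 0 < η → ∃ C c : ℝ, 0 < c ∧ ∀ ε : ℝ, 0 < ε → ∀ Y : ℝ, ∃ ρ1 : ℝ, 0 < ρ1 ∧ ∀ ρ : ℝ, 0 < ρ →
    ρ < ρ1 → ∃ R0 : ℕ, ∀ R : ℕ, R0 ≤ R → ∃ G : ℂ → ℂ, GHyp C c Y G ∧
    ∀ (w h : ℤ) (O : Out w h), Sc η R O → ∀ top : Bool, ∀ t : ℝ, |t| ≤ 1 → ∀ H H0 H1 H2 : ℤ → ℤ → ℂ,
    PotJ O top (wa (rap ⌊ρ * R⌋₊ t)) (wa (rap ⌊ρ * R⌋₊ t + Real.pi / 2)) H →
    PotJ O top 0 1 H0 → PotJ O top (1 / 2) 1 H1 → PotJ O top 0 (1 / 2) H2 →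
    ∀ p q : ℤ × ℤ, Inn w h (η * R) p → Inn w h (η * R) q →
    ‖inc2 H p q - inc2 H0 p q - (⌊ρ * R⌋₊ : ℂ) * (G (pt t) * (inc2 H1 p q - inc2 H0 p q) +
      G (pt t + (Real.pi / 2 : ℝ)) * (inc2 H2 p q - inc2 H0 p q))‖ ≤ ε * ρ * (R : ℝ) ^ (2 / 3 : ℝ)

/-- one natural row or column more -/
def N45 : Prop :=
  ∀ η : ℝ, 0 < η → ∀ ε : ℝ, 0 < ε → ∃ R0 : ℕ, ∀ R : ℕ, R0 ≤ R → ∀ (w h : ℤ) (O : Out w h),
    Sc η R O → ∀ top : Bool, ∀ H0 H1 H2 : ℤ → ℤ → ℂ,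
    PotJ O top 0 1 H0 → PotJ O top (1 / 2) 1 H1 → PotJ O top 0 (1 / 2) H2 →
    ∀ p q : ℤ × ℤ, Inn w h (η * R) p → Inn w h (η * R) q →
    ‖inc2 H1 p q - inc2 H0 p q‖ ≤ ε * (R : ℝ) ^ (2 / 3 : ℝ) ∧
    ‖inc2 H2 p q - inc2 H0 p q‖ ≤ ε * (R : ℝ) ^ (2 / 3 : ℝ)

/-- one natural row or column more, one edge -/
def M45 : Prop :=
  ∀ η : ℝ, 0 < η → ∀ ε : ℝ, 0 < ε → ∃ R0 : ℕ, ∀ R : ℕ, R0 ≤ R → ∀ (w h : ℤ) (O : Out w h),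
    Sc η R O → ∀ top : Bool, ∀ H0 H1 H2 : ℤ → ℤ → ℂ,
    PotJ O top 0 1 H0 → PotJ O top (1 / 2) 1 H1 → PotJ O top 0 (1 / 2) H2 →
    ∀ p q : ℤ × ℤ, q = (p.1, p.2 - 1) → Inn w h (η * R) p → Inn w h (η * R) q →
    ‖inc2 H1 p q - inc2 H0 p q‖ ≤ ε * (R : ℝ) ^ (-(1 / 3) : ℝ) ∧
    ‖inc2 H2 p q - inc2 H0 p q‖ ≤ ε * (R : ℝ) ^ (-(1 / 3) : ℝ)

/-- the displacement of the mark at NW (chapter D) -/
def DL45 : Prop :=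
  ∀ η : ℝ, 0 < η → ∃ C : ℝ, ∃ R0 : ℕ, ∀ R : ℕ, R0 ≤ R → ∀ (w h : ℤ) (O : Out w h), Sc η R O →
    ∀ Ha Hn : ℤ × ℤ → ℂ, Pool.Agent.H21.FM.GPrim (XA O) Ha → Pool.Agent.H21.FM.GPrim (XN O) Hn →
    ∀ p q : ℤ × ℤ, Inn w h (η * R) p → Inn w h (η * R) q →
    ‖(Ha p - Ha q) - (Hn p - Hn q)‖ ≤ C * (R : ℝ) ^ (-(2 / 3) : ℝ)

end Pool.Agent.H95.R45
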