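import Mathlib
import Pool.Agent.H95.R45.Stmt
import Pool.Agent.Q1.M6e.ApXL
import Pool.Agent.H14.R45.DispB
import Pool.Agent.Q1.M6c.APMain

set_option autoImplicit false
open Finset

/-!
# 45 degree rectangles: `DL45`

`DL45` is helper14's `dl45`. The labels of `O.Wo` which are not edges play no role (`oddp`).
-/

namespace Pool.Agent.H95.R45

open Pool.Agent.H75.Perc hiding ph NA
open Pool.Agent.H75.TwoArm Pool.Agent.Q1 Pool.Agent.H33.Q1
open Pool.Agent.H75.Four Pool.Agent.H69.Q1 Pool.Agent.Q1.M6c Pool.Agent.H99.NC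
open Pool.Agent.H74.R45
open Pool.Agent.Q1.M6e (OFar Inn nx_union_odd del_union_odd)
open Pool.Agent.H21.FM (GPrim)

/-- the labels which are edges -/
def fo (W : Finset (ℤ × ℤ)) : Finset (ℤ × ℤ) := W.filter (fun e => (e.1 + e.2) % 2 = 1)

lemma fo_sub (W : Finset (ℤ × ℤ)) : fo W ⊆ W := filter_subset _ _

lemma fo_union (A B : Finset (ℤ × ℤ)) : fo (A ∪ B) = fo A ∪ fo B := filter_union _ _ _

lemma fo_RT {a b c d : ℤ} : fo (RT a b c d) = RT a b c d :=
  filter_true_of_mem fun _ he => odd_RT he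

lemma fo_erase (W : Finset (ℤ × ℤ)) (x : ℤ × ℤ) : fo (W.erase x) = (fo W).erase x := by
  unfold fo
  ext e
  simp only [mem_filter, mem_erase]
  tauto

/-- `Env.plane` is a plane environment. -/
theorem planeEnv_odd {E W : Finset (ℤ × ℤ)} {c0 : ℤ × ℤ} {k0 : ℤ} {g : ℤ × ℤ}
    {hE : ∀ e ∈ E, (e.1 + e.2) % 2 = 1} {hd : Disjoint E W} {hk : k0 % 4 = ty c0}
    {hroot : plab c0 ∉ E} {hg : DCo (E ∪ W) (fi c0) g}
    {hlow : ∀ v, Co (E ∪ W) (vx c0) v → g.2 < v.2} :
    PlaneEnv (Env.plane E W c0 k0 g hE hd hk hroot hg hlow) (fo W) := by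
  have hsub : E ∪ fo W ⊆ E ∪ W := union_subset_union_right (filter_subset _ _)
  refine ⟨?_, ?_, ?_, ?_, g, ?_, ?_⟩
  · exact hd.mono_right (filter_subset _ _)
  · intro e he
    exact (mem_filter.1 he).2
  · intro ω hω i
    rw [plane_E] at hω
    unfold fo
    rw [nx_union_odd, plane_c0]
    exact plane_z hω i
  · intro ω hω i
    rw [plane_E] at hω
    unfold fo
    rw [nx_union_odd, del_union_odd, plane_c0, plane_k0]
    exact plane_K hω i
  · exact hg.anti hsub
  · exact fun v hv => hlow v (hv.mono hsub)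

/-- two plane environments with the same data have the same increments -/
theorem inc_same {X Y : Env} {W W' : Finset (ℤ × ℤ)} (hX : PlaneEnv X W) (hY : PlaneEnv Y W')
    (hE : Y.E = X.E) (hW : W' = W) (hc : Y.c0 = X.c0) (hk : Y.k0 = X.k0) (c : ℤ × ℤ) :
    Y.inc c = X.inc c := by
  rw [Env.inc_eq, Env.inc_eq, hE]
  refine Ec_congr fun ω hω => ?_
  exact Pool.Agent.H14.R45.incO_union hX hY hc hk hω (by rw [hE]; exact hω) (by rw [hW]) c

variable {w h : ℤ}

/-- the outside without the labels which are not edges -/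
def oddp (O : Out w h) : Out w h where
  Wo := fo O.Wo
  c0 := O.c0
  k0 := O.k0
  g := O.g
  hw := O.hw
  hh := O.hh
  w2 := O.w2
  h2 := O.h2
  far := fun x y hxy => O.far x y (fo_sub _ hxy)
  hk := O.hk
  hroot := O.hroot
  hg := O.hg.anti (union_subset_union_right (fo_sub _))
  hlow := fun v hv => O.hlow v (hv.mono (union_subset_union_right (fo_sub _)))

lemma NN_oddp (O : Out w h) : NN (oddp O) = fo (NN O) := by
  unfold NN
  rw [fo_union, fo_union, fo_union, fo_union, fo_RT, fo_RT, fo_RT, fo_RT]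
  rfl

lemma NA_oddp (O : Out w h) : NA (oddp O) = fo (NA O) := by
  unfold NA
  rw [fo_erase, NN_oddp]

lemma fo_fo (W : Finset (ℤ × ℤ)) : fo (fo W) = fo W := by
  unfold fo
  rw [filter_filter]
  simp

lemma inc_XN_oddp (O : Out w h) (c : ℤ × ℤ) : (XN (oddp O)).inc c = (XN O).inc c := by
  refine inc_same (X := XN O) (Y := XN (oddp O)) (W := fo (NN O)) (W' := fo (NN (oddp O)))
    planeEnv_odd planeEnv_odd rfl ?_ rfl rfl c
  rw [NN_oddp, fo_fo]

lemma inc_XA_oddp (O : Out w h) (c : ℤ × ℤ) : (XA (oddp O)).inc c = (XA O).inc c := by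
  refine inc_same (X := XA O) (Y := XA (oddp O)) (W := fo (NA O)) (W' := fo (NA (oddp O)))
    planeEnv_odd planeEnv_odd rfl ?_ rfl rfl c
  rw [NA_oddp, fo_fo]

/-- **The displacement of the mark at NW** (helper14). -/
theorem dl45 : DL45 := Pool.Agent.H14.R45.dl45 ap_planeK

end Pool.Agent.H95.R45
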