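import Mathlib
import Pool.Agent.H95.R45.Stmt

set_option autoImplicit false
open Finset Filter Topology

/-!
# 45 degree rectangles: the input of the glue for one sequence of outsides
-/

namespace Pool.Agent.H95.R45

open Pool.Agent.H75.Perc Pool.Agent.H75.TwoArm Pool.Agent.Q1 Pool.Agent.H33.Q1
open Pool.Agent.H74.R45 Pool.Agent.H64.Q1 Pool.Agent.Q1.M6f.Glue Pool.Agent.H25.Q1.Close
open Pool.Agent.Q1.M6f
open Pool.Agent.Q1.M4 (lat)
open Pool.Agent.Q1.M6e (OFar Inn inc2)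

/-- the open rectangle -/
def Om2 (A B : ℕ) : Set ℂ := {z : ℂ | (0 < z.re ∧ z.re < A) ∧ (0 < z.im ∧ z.im < B)}

lemma isOpen_Om2 (A B : ℕ) : IsOpen (Om2 A B) :=
  ((isOpen_lt continuous_const Complex.continuous_re).inter
    (isOpen_lt Complex.continuous_re continuous_const)).inter
    ((isOpen_lt continuous_const Complex.continuous_im).inter
      (isOpen_lt Complex.continuous_im continuous_const))

/-- **A sequence of outsides** of the rectangles `2 n A × 2 n B`. -/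
structure Fam (A B : ℕ) where
  w : ℕ → ℤ
  h : ℕ → ℤ
  O : ∀ n, Out (w n) (h n)
  hw : ∀ᶠ n in atTop, w n = 2 * n * A
  hh : ∀ᶠ n in atTop, h n = 2 * n * B
  root : ∀ᶠ n in atTop, RootOut (O n)
  far : ∀ᶠ n in atTop, OFar (O n) (2 * n)

/-- the scale -/
noncomputable def R2 (n : ℕ) : ℝ := 2 * (n : ℝ)

lemma R2_top : Tendsto R2 atTop atTop :=
  tendsto_natCast_atTop_atTop.const_mul_atTop (by norm_num)

lemma R2_cast (n : ℕ) : R2 n = ((2 * n : ℕ) : ℝ) := by unfold R2; push_cast; ring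

lemma OFar.anti {w h : ℤ} {O : Out w h} {L L' : ℤ} (hL : L ≤ L') (H : OFar O L') : OFar O L := by
  constructor
  · intro x y hxy
    have := H.wo x y hxy
    omega
  · intro x y hxy
    have := H.root x y hxy
    omega

/-- compact subsets of the rectangle keep a distance from the boundary -/
lemma exists_eta {A B : ℕ} (hA : 0 < A) (hB : 0 < B) {K : Set ℂ} (hK : K ⊆ Om2 A B) (hKc : IsCompact K) :
    ∃ η : ℝ, 0 < η ∧ η ≤ 1 ∧ η ≤ 1 / A ∧ η ≤ 1 / B ∧ ∀ z ∈ K, 2 * η ≤ z.re ∧ z.re + 2 * η ≤ A ∧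
      2 * η ≤ z.im ∧ z.im + 2 * η ≤ B := by
  have hA' : (0 : ℝ) < A := by exact_mod_cast hA
  have hB' : (0 : ℝ) < B := by exact_mod_cast hB
  obtain ⟨s, hs, hsub⟩ := hKc.exists_cthickening_subset_open (isOpen_Om2 A B) hK
  refine ⟨min (min (s / 2) 1) (min (1 / A) (1 / B)), by positivity,
    (min_le_left _ _).trans (min_le_right _ _), (min_le_right _ _).trans (min_le_left _ _),
    (min_le_right _ _).trans (min_le_right _ _), fun z hz => ?_⟩
  have hη : 2 * min (min (s / 2) 1) (min (1 / A) (1 / B)) ≤ s := by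
    have : min (min (s / 2) 1) (min (1 / A) (1 / B)) ≤ s / 2 :=
      (min_le_left _ _).trans (min_le_left _ _)
    linarith
  have key : ∀ d : ℂ, ‖d‖ ≤ s → z + d ∈ Om2 A B := by
    intro d hd
    refine hsub (Metric.mem_cthickening_of_dist_le _ _ s _ hz ?_)
    rw [dist_eq_norm, add_sub_cancel_left]
    exact hd
  have n1 : ‖((s : ℝ) : ℂ)‖ ≤ s := by rw [Complex.norm_real, Real.norm_of_nonneg hs.le]
  have n2 : ‖-((s : ℝ) : ℂ)‖ ≤ s := by rw [norm_neg]; exact n1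
  have n3 : ‖((s : ℝ) : ℂ) * Complex.I‖ ≤ s := by rw [norm_mul, Complex.norm_I, mul_one]; exact n1
  have n4 : ‖-(((s : ℝ) : ℂ) * Complex.I)‖ ≤ s := by rw [norm_neg]; exact n3
  have k1 := key _ n1
  have k2 := key _ n2
  have k3 := key _ n3
  have k4 := key _ n4
  unfold Om2 at k1 k2 k3 k4
  simp only [Set.mem_ofPred_eq, Complex.add_re, Complex.add_im, Complex.ofReal_re, Complex.ofReal_im,
    Complex.neg_re, Complex.neg_im, Complex.mul_re, Complex.mul_im, Complex.I_re, Complex.I_im, mul_zero,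
    mul_one, sub_zero, add_zero, neg_zero] at k1 k2 k3 k4
  refine ⟨by linarith [k2.1.1], by linarith [k1.1.2], by linarith [k4.2.1], by linarith [k3.2.2]⟩

/-- points of `R K` are inner points -/
lemma inn_of_mem {A B : ℕ} {K : Set ℂ} {η : ℝ} (h : ∀ z ∈ K, 2 * η ≤ z.re ∧ z.re + 2 * η ≤ A ∧
    2 * η ≤ z.im ∧ z.im + 2 * η ≤ B) {n : ℕ} (hn : 0 < n) {w hh : ℤ}
    (hw : w = 2 * n * A) (hh' : hh = 2 * n * B) {v : ℤ × ℤ} (hv : lat v / (R2 n : ℂ) ∈ K) {k : ℤ}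
    (hk : 0 ≤ k) (hη1 : (k : ℝ) ≤ η * ((2 * n : ℕ) : ℝ)) :
    Inn w hh (η * ((2 * n : ℕ) : ℝ)) (v.1, v.2 - k) := by
  have hn' : (0 : ℝ) < n := by exact_mod_cast hn
  have hk' : (0 : ℝ) ≤ k := by exact_mod_cast hk
  have hR : 0 < R2 n := by unfold R2; positivity
  obtain ⟨a1, a2, a3, a4⟩ := h _ hv
  rw [Complex.div_ofReal_re] at a1 a2
  rw [Complex.div_ofReal_im] at a3 a4
  simp only [lat] at a1 a2 a3 a4
  rw [le_div_iff₀ hR] at a1 a3
  have b2 : (v.1 : ℝ) + 2 * η * R2 n ≤ A * R2 n := by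
    have := mul_le_mul_of_nonneg_right a2 hR.le
    rw [add_mul, div_mul_cancel₀ _ hR.ne'] at this
    exact this
  have b4 : (v.2 : ℝ) + 2 * η * R2 n ≤ B * R2 n := by
    have := mul_le_mul_of_nonneg_right a4 hR.le
    rw [add_mul, div_mul_cancel₀ _ hR.ne'] at this
    exact this
  have eR : R2 n = ((2 * n : ℕ) : ℝ) := R2_cast n
  rw [eR] at a1 a3 b2 b4
  have hw' : (w : ℝ) = A * ((2 * n : ℕ) : ℝ) := by rw [hw]; push_cast; ring
  have hh'' : (hh : ℝ) = B * ((2 * n : ℕ) : ℝ) := by rw [hh']; push_cast; ring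
  have hp : 0 ≤ η * ((2 * n : ℕ) : ℝ) := hk'.trans hη1
  refine ⟨?_, ?_, ?_, ?_⟩
  · linarith
  · rw [hw']; linarith
  · push_cast at a3 hη1 hp ⊢; linarith
  · rw [hh'']; push_cast at b4 hη1 hp ⊢; linarith

variable {A B : ℕ} (F : Fam A B)

/-- the scale hypotheses -/
lemma Fam.sc (hA : 0 < A) (hB : 0 < B) {η : ℝ} (hη : 0 < η) (h1 : η ≤ 1) (hηA : η ≤ 1 / A)
    (hηB : η ≤ 1 / B) : ∀ᶠ n in atTop, Sc η (2 * n) (F.O n) := by
  have hA' : (1 : ℝ) ≤ A := by exact_mod_cast hA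
  have hB' : (1 : ℝ) ≤ B := by exact_mod_cast hB
  filter_upwards [F.hw, F.hh, F.root, F.far] with n k1 k2 k3 k4
  have hw' : (F.w n : ℝ) = ((2 * n : ℕ) : ℝ) * A := by rw [k1]; push_cast; ring
  have hh' : (F.h n : ℝ) = ((2 * n : ℕ) : ℝ) * B := by rw [k2]; push_cast; ring
  have hR : (0 : ℝ) ≤ ((2 * n : ℕ) : ℝ) := by positivity
  have i1 : (A : ℝ) ≤ 1 / η := by
    rw [le_div_iff₀ hη]; rw [le_div_iff₀ (by linarith)] at hηA; linarith
  have i2 : (B : ℝ) ≤ 1 / η := by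
    rw [le_div_iff₀ hη]; rw [le_div_iff₀ (by linarith)] at hηB; linarith
  refine ⟨?_, ?_, ?_, ?_, k3, OFar.anti ?_ k4⟩
  · rw [hw', mul_comm η]
    exact mul_le_mul_of_nonneg_left (h1.trans hA') hR
  · rw [hw', div_eq_mul_one_div]
    exact mul_le_mul_of_nonneg_left i1 hR
  · rw [hh', mul_comm η]
    exact mul_le_mul_of_nonneg_left (h1.trans hB') hR
  · rw [hh', div_eq_mul_one_div]
    exact mul_le_mul_of_nonneg_left i2 hR
  · have : η * ((2 * n : ℕ) : ℝ) ≤ ((2 * n : ℤ) : ℝ) := by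
      push_cast at hR ⊢
      nlinarith
    exact Int.cast_le.1 ((Int.floor_le _).trans this)

/-- the potential below -/
noncomputable def Fam.Lo (n : ℕ) (a b : ℂ) : ℤ → ℤ → ℂ := (exists_low (F.O n) a b).choose

/-- the potential above -/
noncomputable def Fam.Up (n : ℕ) (a b : ℂ) : ℤ → ℤ → ℂ := (exists_up (F.O n) a b).choose

lemma Fam.lo_spec (n : ℕ) (a b : ℂ) : PotJ (F.O n) false a b (F.Lo n a b) :=
  (exists_low (F.O n) a b).choose_spec

lemma Fam.up_spec (n : ℕ) (a b : ℂ) : PotJ (F.O n) true a b (F.Up n a b) :=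
  (exists_up (F.O n) a b).choose_spec

/-- normalisation -/
noncomputable def nu (n : ℕ) : ℂ := ((R2 n ^ (-(2 / 3) : ℝ) : ℝ) : ℂ)

variable (κ : ℕ → ℂ)

/-- `V` of the track -/
noncomputable def Fam.V (n : ℕ) (φ : ℂ) (v : ℤ × ℤ) : ℂ :=
  κ n * nu n * (F.Lo n (wa φ) (wa (φ + Real.pi / 2)) v.1 v.2 -
    F.Up n (wa φ) (wa (φ + Real.pi / 2)) v.1 (v.2 - 1))

/-- `e` of the track -/
noncomputable def Fam.e (n : ℕ) (v : ℤ × ℤ) : ℂ :=
  κ n * nu n * (F.Lo n 0 1 v.1 v.2 - F.Up n 0 1 v.1 (v.2 - 1))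

/-- one natural row more -/
noncomputable def Fam.ff (n : ℕ) (v : ℤ × ℤ) : ℂ := κ n * nu n * F.Lo n (1 / 2) 1 v.1 v.2

/-- one natural column more -/
noncomputable def Fam.fl (n : ℕ) (v : ℤ × ℤ) : ℂ := κ n * nu n * F.Lo n 0 (1 / 2) v.1 v.2

lemma norm_nu {n : ℕ} (hn : 0 < n) : ‖nu n‖ = R2 n ^ (-(2 / 3) : ℝ) := by
  have h0 : (0 : ℝ) < n := by exact_mod_cast hn
  have : 0 < R2 n := by unfold R2; positivity
  unfold nu
  rw [Complex.norm_real, Real.norm_of_nonneg (by positivity)]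

end Pool.Agent.H95.R45
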