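import Mathlib
import Pool.Agent.H95.R45.One
import Pool.Agent.H33.R45.FarI
import Pool.Agent.H33.R45.SameR
import Pool.Agent.H87.FM.LimOK

set_option autoImplicit false
open Finset Filter Topology

/-!
# 45 degree rectangles: the domain and the families of outsides
-/

namespace Pool.Agent.H95.R45

open Pool.Agent.H75.TwoArm Pool.Agent.Q1 Pool.Agent.H33.Q1
open Pool.Agent.H74.R45 Pool.Agent.H33.R45
open Pool.Agent.Q1.M4 (Om Reg mem_Om mem_rect rect lat)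
open Pool.Agent.H87.FM (gx gx_mono)
open Pool.Agent.H57.FM (RS RP RQ mem_RQ)
open Pool.Agent.Q1.M6e (OFar)

/-- The open domain of the rectangle shape. -/
theorem Om_RS {a b : ℕ} (ha : 0 < a) (hb : 0 < b) : Om (RS a b ha hb).P.Q gx gx = Om2 a b := by
  have hQ : (RS a b ha hb).P.Q = RQ a b := rfl
  rw [hQ]
  have cell : ∀ t : ℝ, ∃ n : ℤ, (n : ℝ) ≤ t ∧ t ≤ ((n + 1 : ℤ) : ℝ) := fun t =>
    ⟨⌊t⌋, Int.floor_le t, by push_cast; exact (Int.lt_floor_add_one t).le⟩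
  have cell' : ∀ t : ℝ, ∃ n : ℤ, (n : ℝ) < t ∧ t ≤ ((n + 1 : ℤ) : ℝ) := fun t =>
    ⟨⌈t⌉ - 1, by push_cast; linarith [Int.ceil_lt_add_one t], by push_cast; linarith [Int.le_ceil t]⟩
  ext z
  rw [mem_Om gx_mono gx_mono]
  constructor
  · rintro ⟨⟨c, hc, hz⟩, h2⟩
    rw [mem_rect] at hz
    obtain ⟨p, hp1, hp2⟩ := cell z.re
    obtain ⟨q, hq1, hq2⟩ := cell z.im
    obtain ⟨p', hp1', hp2'⟩ := cell' z.re
    obtain ⟨q', hq1', hq2'⟩ := cell' z.im
    have k1 := h2 (p, q) (mem_rect.2 ⟨⟨hp1, hp2⟩, hq1, hq2⟩)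
    have k2 := h2 (p', q') (mem_rect.2 ⟨⟨hp1'.le, hp2'⟩, hq1'.le, hq2'⟩)
    rw [mem_RQ] at k1 k2
    simp only at k1 k2
    obtain ⟨⟨l1, -⟩, l2, -⟩ := k2
    obtain ⟨⟨-, u1⟩, -, u2⟩ := k1
    have l1' : (0 : ℝ) ≤ p' := by exact_mod_cast l1
    have l2' : (0 : ℝ) ≤ q' := by exact_mod_cast l2
    refine ⟨⟨by linarith, ?_⟩, by linarith, ?_⟩
    · rcases lt_or_eq_of_le hp2 with h | h
      · have : ((p + 1 : ℤ) : ℝ) ≤ a := by exact_mod_cast u1
        linarith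
      · have k3 := h2 (p + 1, q) (mem_rect.2 ⟨⟨by show ((p + 1 : ℤ) : ℝ) ≤ z.re; linarith,
          by show z.re ≤ ((p + 1 + 1 : ℤ) : ℝ); push_cast at h ⊢; linarith⟩, hq1, hq2⟩)
        rw [mem_RQ] at k3
        have k4 : ((p + 1 : ℤ) : ℝ) < a := by exact_mod_cast k3.1.2
        linarith
    · rcases lt_or_eq_of_le hq2 with h | h
      · have : ((q + 1 : ℤ) : ℝ) ≤ b := by exact_mod_cast u2
        linarith
      · have k3 := h2 (p, q + 1) (mem_rect.2 ⟨⟨hp1, hp2⟩, by show ((q + 1 : ℤ) : ℝ) ≤ z.im; linarith,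
          by show z.im ≤ ((q + 1 + 1 : ℤ) : ℝ); push_cast at h ⊢; linarith⟩)
        rw [mem_RQ] at k3
        have k4 : ((q + 1 : ℤ) : ℝ) < b := by exact_mod_cast k3.2.2
        linarith
  · rintro ⟨⟨h1, h2⟩, h3, h4⟩
    have key : ∀ c : M4.Cell, z ∈ rect gx gx c → c ∈ RQ a b := by
      intro c hc
      rw [mem_rect] at hc
      obtain ⟨⟨c1, c2⟩, c3, c4⟩ := hc
      have e1 : ((-1 : ℤ) : ℝ) < c.1 := by
        have : gx (c.1 + 1) = (c.1 : ℝ) + 1 := by unfold gx; push_cast; ring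
        rw [this] at c2
        push_cast; linarith
      have e2 : (c.1 : ℝ) < (a : ℤ) := by
        have : gx c.1 = (c.1 : ℝ) := rfl
        rw [this] at c1
        push_cast; linarith
      have e3 : ((-1 : ℤ) : ℝ) < c.2 := by
        have : gx (c.2 + 1) = (c.2 : ℝ) + 1 := by unfold gx; push_cast; ring
        rw [this] at c4
        push_cast; linarith
      have e4 : (c.2 : ℝ) < (b : ℤ) := by
        have : gx c.2 = (c.2 : ℝ) := rfl
        rw [this] at c3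
        push_cast; linarith
      rw [mem_RQ]
      have f1 := Int.cast_lt.1 e1
      have f2 := Int.cast_lt.1 e2
      have f3 := Int.cast_lt.1 e3
      have f4 := Int.cast_lt.1 e4
      omega
    refine ⟨?_, key⟩
    obtain ⟨p, hp1, hp2⟩ := cell z.re
    obtain ⟨q, hq1, hq2⟩ := cell z.im
    have hm : z ∈ rect gx gx (p, q) := mem_rect.2 ⟨⟨hp1, hp2⟩, hq1, hq2⟩
    exact ⟨(p, q), key _ hm, hm⟩

/-! ### The parameters -/

variable {a b : ℕ}

/-- the index, at least four -/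
def n4 (n : ℕ) : ℕ := max n 4

lemma n4_eq {n : ℕ} (h : 4 ≤ n) : n4 n = n := max_eq_left h

lemma four_le (n : ℕ) : 4 ≤ n4 n := le_max_right _ _

/-- half of the distance of the far wires -/
def mm (n : ℕ) : ℕ := n4 n + 2

lemma parN (ha : 0 < a) (hb : 0 < b) (n : ℕ) :
    Par (2 * ((n4 n : ℕ) : ℤ) * a) (2 * ((n4 n : ℕ) : ℤ) * b) (2 * (mm n : ℕ)) :=
  par_RS ha hb (by have := four_le n; omega) (by unfold mm; omega)

lemma far_le (n : ℕ) : 2 * (n : ℤ) + 1 ≤ 2 * (mm n : ℕ) := by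
  have : n ≤ n4 n := le_max_left _ _
  unfold mm
  push_cast
  omega

end Pool.Agent.H95.R45
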