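import Mathlib
import Pool.Agent.H74.R45.Mir
import Pool.Agent.H33.R45.SameR
import Pool.Agent.H76.FM.GPrim
import Pool.Agent.H95.R45.One

set_option autoImplicit false
open Finset

/-!
# 45 degree rectangles: existence of the primitives on the tile grid, bound of one edge
-/

namespace Pool.Agent.H95.R45

open Pool.Agent.H75.TwoArm Pool.Agent.Q1 Pool.Agent.H33.Q1
open Pool.Agent.H75.Perc hiding ph
open Pool.Agent.H75.Four Pool.Agent.H69.Q1
open Pool.Agent.H74.R45
open Pool.Agent.H21.FM (GPrim)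

variable {w h : ℤ} {O : Out w h}

/-- every corner is a vertical or a horizontal edge of the grid -/
lemma exists_edge (c : ℤ × ℤ) : ∃ x y : ℤ, c = ve (x, y) ∨ c = he (x, y) := by
  obtain ⟨c1, c2⟩ := c
  rcases Int.emod_two_eq_zero_or_one (c1 + c2) with hp | hp
  · refine ⟨(c1 + c2 - 2) / 2, (c2 - c1) / 2, Or.inr ?_⟩
    unfold he
    refine Prod.ext ?_ ?_ <;> simp only <;> omega
  · refine ⟨(c1 + c2 - 1) / 2, (c2 - c1 - 1) / 2, Or.inl ?_⟩
    unfold ve
    refine Prod.ext ?_ ?_ <;> simp only <;> omega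

/-- a potential on the rectangle is a primitive -/
theorem gprim_of_pot {X : Env} {x0 x1 y0 y1 : ℤ} (hE : X.E = RT x0 x1 y0 y1) {F : ℤ × ℤ → ℂ}
    {H : ℤ → ℤ → ℂ} (hP : Pot F H x0 x1 y0 y1) (hF : ∀ c, RC (RT x0 x1 y0 y1) c → F c = X.inc c) :
    GPrim X (fun p => H p.1 p.2) := by
  intro c hc
  rw [hE] at hc
  have hFc := hF c hc
  obtain ⟨x, y, rfl | rfl⟩ := exists_edge c
  · rcases Int.emod_two_eq_zero_or_one (x + y) with hp | hp
    · have e1 : tv (vx (ve (x, y))) = (x, y) := by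
        unfold tv vx ve; refine Prod.ext ?_ ?_ <;> dsimp only <;> omega
      have e2 : tf (fi (ve (x, y))) = (x, y + 1) := by
        unfold tf fi ve; refine Prod.ext ?_ ?_ <;> dsimp only <;> omega
      have hb : x0 ≤ x ∧ x ≤ x1 ∧ y0 ≤ y ∧ y < y1 := by
        rw [lab_ve_W hp, plab_ve_W hp, lt_mem_RT, lt_mem_RT] at hc
        omega
      have := hP.ver x y hb.1 hb.2.1 hb.2.2.1 hb.2.2.2
      rw [sg_even hp, one_mul] at this
      rw [e1, e2, ← hFc, this]
    · have e1 : tv (vx (ve (x, y))) = (x, y + 1) := by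
        unfold tv vx ve; refine Prod.ext ?_ ?_ <;> dsimp only <;> omega
      have e2 : tf (fi (ve (x, y))) = (x, y) := by
        unfold tf fi ve; refine Prod.ext ?_ ?_ <;> dsimp only <;> omega
      have hb : x0 ≤ x ∧ x ≤ x1 ∧ y0 ≤ y ∧ y < y1 := by
        rw [lab_ve_E hp, plab_ve_E hp, lt_mem_RT, lt_mem_RT] at hc
        omega
      have := hP.ver x y hb.1 hb.2.1 hb.2.2.1 hb.2.2.2
      rw [sg_odd hp] at this
      rw [e1, e2, ← hFc]
      linear_combination this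
  · rcases Int.emod_two_eq_zero_or_one (x + y) with hp | hp
    · have e1 : tv (vx (he (x, y))) = (x, y) := by
        unfold tv vx he; refine Prod.ext ?_ ?_ <;> dsimp only <;> omega
      have e2 : tf (fi (he (x, y))) = (x + 1, y) := by
        unfold tf fi he; refine Prod.ext ?_ ?_ <;> dsimp only <;> omega
      have hb : x0 ≤ x ∧ x < x1 ∧ y0 ≤ y ∧ y ≤ y1 := by
        rw [lab_he_N hp, plab_he_N hp, lt_mem_RT, lt_mem_RT] at hc
        omega
      have := hP.hor x y hb.1 hb.2.1 hb.2.2.1 hb.2.2.2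
      rw [sg_even hp, one_mul] at this
      rw [e1, e2, ← hFc, this]
    · have e1 : tv (vx (he (x, y))) = (x + 1, y) := by
        unfold tv vx he; refine Prod.ext ?_ ?_ <;> dsimp only <;> omega
      have e2 : tf (fi (he (x, y))) = (x, y) := by
        unfold tf fi he; refine Prod.ext ?_ ?_ <;> dsimp only <;> omega
      have hb : x0 ≤ x ∧ x < x1 ∧ y0 ≤ y ∧ y ≤ y1 := by
        rw [lab_he_S hp, plab_he_S hp, lt_mem_RT, lt_mem_RT] at hc
        omega
      have := hP.hor x y hb.1 hb.2.1 hb.2.2.1 hb.2.2.2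
      rw [sg_odd hp] at this
      rw [e1, e2, ← hFc]
      linear_combination this

/-- primitive of the natural rectangle with a free corner vertex at NW -/
theorem exists_XA (R : RootOut O) : ∃ Ha, GPrim (XA O) Ha := by
  obtain ⟨Hl, hl⟩ := exists_low O 0 1
  exact ⟨_, gprim_of_pot (X := XA O) rfl hl fun c hc => S3 O R hc⟩

/-- primitive of the natural rectangle below -/
theorem exists_XU (R : RootOut O) : ∃ Hc, GPrim (XU O) Hc := by
  obtain ⟨Hu, hu⟩ := exists_up O 0 1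
  exact ⟨_, gprim_of_pot (X := XU O) rfl hu fun c hc => S4 O R hc⟩

lemma norm_inc (X : Env) (c : ℤ × ℤ) : ‖X.inc c‖ ≤ 1 := Env.inc_norm_le_one X c

lemma norm_sg (n : ℤ) : ‖H74.R45.sg n‖ = 1 := by unfold H74.R45.sg; split_ifs <;> simp

/-- one horizontal edge -/
lemma gprim_hor {X : Env} {x0 x1 y0 y1 : ℤ} (hE : X.E = RT x0 x1 y0 y1) (hy : y0 < y1)
    {Ht : ℤ × ℤ → ℂ} (hg : GPrim X Ht) {x y : ℤ} (h1 : x0 ≤ x) (h2 : x < x1) (h3 : y0 ≤ y)
    (h4 : y ≤ y1) : ‖Ht (x, y) - Ht (x + 1, y)‖ ≤ 1 := by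
  rw [← (gprim_edge hg).1 (by rw [hE]; exact RC_he h1 h2 h3 h4 hy), norm_mul, norm_sg, one_mul]
  exact norm_inc X _

/-- one vertical edge -/
lemma gprim_ver {X : Env} {x0 x1 y0 y1 : ℤ} (hE : X.E = RT x0 x1 y0 y1) (hx : x0 < x1)
    {Ht : ℤ × ℤ → ℂ} (hg : GPrim X Ht) {x y : ℤ} (h1 : x0 ≤ x) (h2 : x ≤ x1) (h3 : y0 ≤ y)
    (h4 : y < y1) : ‖Ht (x, y) - Ht (x, y + 1)‖ ≤ 1 := by
  rw [← (gprim_edge hg).2 (by rw [hE]; exact RC_ve h1 h2 h3 h4 hx), norm_mul, norm_sg, one_mul]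
  exact norm_inc X _

/-- points at distance at most one in both coordinates -/
lemma gprim_near {X : Env} {x0 x1 y0 y1 : ℤ} (hE : X.E = RT x0 x1 y0 y1) (hx : x0 < x1) (hy : y0 < y1)
    {Ht : ℤ × ℤ → ℂ} (hg : GPrim X Ht) {u d : ℤ × ℤ} (h1 : x0 < u.1) (h2 : u.1 < x1) (h3 : y0 < u.2)
    (h4 : u.2 < y1) (d1 : |d.1| ≤ 1) (d2 : |d.2| ≤ 1) : ‖Ht (u + d) - Ht u‖ ≤ 2 := by
  obtain ⟨x, y⟩ := u
  obtain ⟨p, q⟩ := d
  rw [abs_le] at d1 d2
  simp only at h1 h2 h3 h4 d1 d2
  have a1 : ‖Ht (x + p, y) - Ht (x, y)‖ ≤ 1 := by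
    have hp : p = -1 ∨ p = 0 ∨ p = 1 := by omega
    rcases hp with rfl | rfl | rfl
    · have := gprim_hor hE hy hg (x := x - 1) (y := y) (by omega) (by omega) (by omega) (by omega)
      rw [show x - 1 + 1 = x by ring] at this
      exact this
    · rw [add_zero, sub_self, norm_zero]; norm_num
    · rw [norm_sub_rev]
      exact gprim_hor hE hy hg (x := x) (y := y) (by omega) (by omega) (by omega) (by omega)
  have a2 : ‖Ht (x + p, y + q) - Ht (x + p, y)‖ ≤ 1 := by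
    have hq : q = -1 ∨ q = 0 ∨ q = 1 := by omega
    rcases hq with rfl | rfl | rfl
    · have := gprim_ver hE hx hg (x := x + p) (y := y - 1) (by omega) (by omega) (by omega) (by omega)
      rw [show y - 1 + 1 = y by ring] at this
      exact this
    · rw [add_zero, sub_self, norm_zero]; norm_num
    · rw [norm_sub_rev]
      exact gprim_ver hE hx hg (x := x + p) (y := y) (by omega) (by omega) (by omega) (by omega)
  have e : Ht ((x, y) + (p, q)) - Ht (x, y) = (Ht (x + p, y + q) - Ht (x + p, y)) +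
      (Ht (x + p, y) - Ht (x, y)) := by
    rw [Prod.mk_add_mk]; ring
  rw [e]
  exact (norm_add_le _ _).trans (by linarith)

end Pool.Agent.H95.R45
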