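import Mathlib
import Pool.Agent.H95.R45.One

set_option autoImplicit false
open Finset Filter Topology

/-!
# 45 degree rectangles: `TrackIn` for one sequence of outsides
-/

namespace Pool.Agent.H95.R45

open Pool.Agent.H75.Perc Pool.Agent.H75.TwoArm Pool.Agent.Q1 Pool.Agent.H33.Q1
open Pool.Agent.H74.R45 Pool.Agent.H64.Q1 Pool.Agent.Q1.M6f.Glue Pool.Agent.H25.Q1.Close
open Pool.Agent.Q1.M6f
open Pool.Agent.H99.NC (Pb Ex_const)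
open Pool.Agent.Q1.M4 (lat)
open Pool.Agent.Q1.M6e (OFar Inn inc2)

/-- the increments are bounded for real weights -/
lemma norm_FJ_le {w h : ℤ} (O : Out w h) {a b : ℝ} (ha : 0 ≤ a) (ha' : a ≤ 1) (hb : 0 ≤ b) (hb' : b ≤ 1)
    (j : ℤ) (c : ℤ × ℤ) : ‖FJ O a b j c‖ ≤ 1 := by
  unfold FJ
  split_ifs with H
  · set q : ℤ × ℤ → ℝ := fun e => if (tt e).1 = -1 ∨ (tt e).1 = w then
      (if ((tt e).1 + (tt e).2) % 2 = 1 then b else 1 - b)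
      else if (tt e).2 = j - 1 then (if ((tt e).1 + (tt e).2) % 2 = 0 then a else 1 - a)
      else 1 / 2 with hq
    have e1 : qJ w h j a b = fun e => (q e : ℂ) := by
      funext e
      unfold qJ
      simp only [hq]
      split_ifs <;> push_cast <;> rfl
    have hP : Pb q := by
      intro e
      simp only [hq]
      split_ifs <;> constructor <;> linarith
    unfold Env.incW
    rw [e1]
    refine (Ec_norm hP (g := fun _ => 1) fun ω hω => Env.incO_norm hω c).trans ?_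
    rw [Ex_const]
  · rw [norm_zero]; norm_num

variable {A B : ℕ} (F : Fam A B) (κ : ℕ → ℂ)

/-- the response `A` -/
lemma Fam.al_eq {n : ℕ} (hr : RootOut (F.O n)) : ∃ C : ℂ, ∀ v : ℤ × ℤ, 0 ≤ v.1 → v.1 ≤ F.w n → 1 ≤ v.2 →
    v.2 ≤ F.h n → al (F.e κ n) (F.ff κ n) v = κ n * nu n *
      ((F.Lo n (1 / 2) 1 v.1 v.2 - F.Lo n 0 1 v.1 v.2) -
        (F.Up n (1 / 2) 1 v.1 (v.2 - 1) - F.Up n 0 1 v.1 (v.2 - 1)) + C) := by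
  obtain ⟨C, hC⟩ := S1_pot hr (F.lo_spec n (1 / 2) 1) (F.up_spec n (1 / 2) 1)
  refine ⟨C, fun v h1 h2 h3 h4 => ?_⟩
  have := hC v.1 (v.2 - 1) h1 h2 (by omega) (by omega)
  unfold al Fam.ff Fam.e
  have e1 : (v - uu).1 = v.1 := by simp [uu]
  have e2 : (v - uu).2 = v.2 - 1 := by simp [uu]
  rw [e1, e2, this]
  ring

/-- the response `B` -/
lemma Fam.be_eq {n : ℕ} (hr : RootOut (F.O n)) : ∃ C : ℂ, ∀ v : ℤ × ℤ, 1 ≤ v.1 → v.1 ≤ F.w n → 0 ≤ v.2 →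
    v.2 ≤ F.h n → be (F.e κ n) (F.fl κ n) v = κ n * nu n *
      ((F.Lo n 0 (1 / 2) v.1 v.2 - F.Lo n 0 1 v.1 v.2) -
        (F.Up n 0 (1 / 2) v.1 (v.2 - 1) - F.Up n 0 1 v.1 (v.2 - 1)) + C) := by
  obtain ⟨C, hC⟩ := S2_pot hr (F.lo_spec n 0 (1 / 2)) (F.up_spec n 0 (1 / 2))
  refine ⟨C, fun v h1 h2 h3 h4 => ?_⟩
  have := hC v.1 (v.2 - 1) h1 h2 (by omega) (by omega)
  unfold be Fam.fl Fam.e
  have e1 : (v - rr).1 = v.1 - 1 := by simp [rr]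
  have e2 : (v - rr).2 = v.2 := by simp [rr]
  rw [show v.2 - 1 + 1 = v.2 by ring] at this
  rw [e1, e2, this]
  ring

/-- difference of the responses -/
noncomputable def Fam.dL (n : ℕ) (a b : ℂ) (u v : ℤ × ℤ) : ℂ :=
  inc2 (F.Lo n a b) u v - inc2 (F.Lo n 0 1) u v

noncomputable def Fam.dU (n : ℕ) (a b : ℂ) (u v : ℤ × ℤ) : ℂ :=
  inc2 (F.Up n a b) (u.1, u.2 - 1) (v.1, v.2 - 1) - inc2 (F.Up n 0 1) (u.1, u.2 - 1) (v.1, v.2 - 1)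

lemma Fam.al_sub {n : ℕ} (hr : RootOut (F.O n)) {u v : ℤ × ℤ} (hu : 0 ≤ u.1 ∧ u.1 ≤ F.w n ∧ 1 ≤ u.2 ∧
    u.2 ≤ F.h n) (hv : 0 ≤ v.1 ∧ v.1 ≤ F.w n ∧ 1 ≤ v.2 ∧ v.2 ≤ F.h n) :
    al (F.e κ n) (F.ff κ n) u - al (F.e κ n) (F.ff κ n) v =
      κ n * nu n * (F.dL n (1 / 2) 1 u v - F.dU n (1 / 2) 1 u v) := by
  obtain ⟨C, hC⟩ := F.al_eq κ hr
  rw [hC u hu.1 hu.2.1 hu.2.2.1 hu.2.2.2, hC v hv.1 hv.2.1 hv.2.2.1 hv.2.2.2]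
  unfold Fam.dL Fam.dU inc2
  ring

lemma Fam.be_sub {n : ℕ} (hr : RootOut (F.O n)) {u v : ℤ × ℤ} (hu : 1 ≤ u.1 ∧ u.1 ≤ F.w n ∧ 0 ≤ u.2 ∧
    u.2 ≤ F.h n) (hv : 1 ≤ v.1 ∧ v.1 ≤ F.w n ∧ 0 ≤ v.2 ∧ v.2 ≤ F.h n) :
    be (F.e κ n) (F.fl κ n) u - be (F.e κ n) (F.fl κ n) v =
      κ n * nu n * (F.dL n 0 (1 / 2) u v - F.dU n 0 (1 / 2) u v) := by
  obtain ⟨C, hC⟩ := F.be_eq κ hr
  rw [hC u hu.1 hu.2.1 hu.2.2.1 hu.2.2.2, hC v hv.1 hv.2.1 hv.2.2.1 hv.2.2.2]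
  unfold Fam.dL Fam.dU inc2
  ring

/-- one edge, real weights -/
lemma Fam.edge {n : ℕ} {v : ℤ × ℤ} (hv : 0 ≤ v.1 ∧ v.1 ≤ F.w n ∧ 1 ≤ v.2 ∧ v.2 ≤ F.h n) :
    ‖F.Lo n (1 / 2) 1 v.1 v.2 - F.Lo n (1 / 2) 1 v.1 (v.2 - 1)‖ ≤ 1 := by
  have h1 := (F.lo_spec n (1 / 2) 1).ver v.1 (v.2 - 1) hv.1 hv.2.1 (by simp; omega) (by simp; omega)
  rw [show v.2 - 1 + 1 = v.2 by ring] at h1
  rw [norm_sub_rev, ← h1, norm_mul]
  have h2 : ‖H74.R45.sg (v.1 + (v.2 - 1))‖ = 1 := by unfold H74.R45.sg; split_ifs <;> simp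
  have h3 := norm_FJ_le (F.O n) (a := 1 / 2) (b := 1) (by norm_num) (by norm_num) (by norm_num)
    (by norm_num) (if false then F.h n else 0) (ve (v.1, v.2 - 1))
  push_cast at h3
  rw [h2, one_mul]
  exact h3

lemma Inn.pos {w h : ℤ} {d : ℝ} (hd : 1 ≤ d) {p : ℤ × ℤ} (hp : Inn w h d p) :
    1 ≤ p.1 ∧ p.1 ≤ w ∧ 1 ≤ p.2 ∧ p.2 ≤ h := by
  obtain ⟨a, b, c, e⟩ := hp
  refine ⟨?_, ?_, ?_, ?_⟩
  · exact_mod_cast hd.trans a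
  · have : (p.1 : ℝ) ≤ w := by linarith
    exact_mod_cast this
  · exact_mod_cast hd.trans c
  · have : (p.2 : ℝ) ≤ h := by linarith
    exact_mod_cast this

end Pool.Agent.H95.R45
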