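import Mathlib
import Pool.Agent.H95.R45.Track

set_option autoImplicit false
open Finset Filter Topology

/-!
# 45 degree rectangles: `TrackIn` for one sequence of outsides, from `AB45`, `C45`, `N45`, `M45`
-/

namespace Pool.Agent.H95.R45

open Pool.Agent.H75.Perc Pool.Agent.H75.TwoArm Pool.Agent.Q1 Pool.Agent.H33.Q1
open Pool.Agent.H74.R45 Pool.Agent.H64.Q1 Pool.Agent.Q1.M6f.Glue Pool.Agent.H25.Q1.Close
open Pool.Agent.Q1.M6f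
open Pool.Agent.Q1.M4 (lat)
open Pool.Agent.Q1.M6e (OFar Inn inc2)

variable {A B : ℕ} (F : Fam A B) (κ : ℕ → ℂ)

/-- **The working form of the scale hypotheses**: for a compact set `K` there is `η` such that eventually
all points of `R K`, shifted by at most two rows, are inner points. -/
lemma Fam.work (hA : 0 < A) (hB : 0 < B) {K : Set ℂ} (hK : K ⊆ Om2 A B) (hKc : IsCompact K) :
    ∃ η : ℝ, 0 < η ∧ ∀ᶠ n in atTop, 0 < n ∧ Sc η (2 * n) (F.O n) ∧ 1 ≤ η * ((2 * n : ℕ) : ℝ) ∧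
      ∀ v : ℤ × ℤ, lat v / (R2 n : ℂ) ∈ K → ∀ k : ℤ, 0 ≤ k → k ≤ 2 →
        Inn (F.w n) (F.h n) (η * ((2 * n : ℕ) : ℝ)) (v.1, v.2 - k) := by
  obtain ⟨η, hη, h1, hA1, hB1, hin⟩ := exists_eta hA hB hK hKc
  refine ⟨η, hη, ?_⟩
  have h2 : Tendsto (fun n : ℕ => η * ((2 * n : ℕ) : ℝ)) atTop atTop := by
    have := R2_top.const_mul_atTop hη
    refine this.congr fun n => ?_
    rw [R2_cast]
  filter_upwards [F.sc hA hB hη h1 hA1 hB1, h2.eventually_ge_atTop 2, F.hw, F.hh,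
    eventually_gt_atTop 0] with n k1 k2 k3 k4 k5
  refine ⟨k5, k1, by linarith, fun v hv k hk hk' => ?_⟩
  refine inn_of_mem hin k5 k3 k4 hv hk (le_trans ?_ k2)
  exact_mod_cast hk'

lemma pw {R : ℝ} (hR : 0 < R) : R ^ (-(2 / 3) : ℝ) * R ^ (2 / 3 : ℝ) = 1 := by
  rw [← Real.rpow_add hR]
  norm_num

lemma pw' {R : ℝ} (hR : 0 < R) : R ^ (-(2 / 3) : ℝ) * R ^ (-(1 / 3) : ℝ) = 1 / R := by
  rw [← Real.rpow_add hR, show (-(2 / 3) : ℝ) + -(1 / 3) = -1 by norm_num, Real.rpow_neg_one, one_div]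

lemma norm_knu (hκ : ∀ n, ‖κ n‖ = 1) {n : ℕ} (hn : 0 < n) (x : ℂ) :
    ‖κ n * nu n * x‖ = R2 n ^ (-(2 / 3) : ℝ) * ‖x‖ := by
  rw [norm_mul, norm_mul, hκ, one_mul, norm_nu hn]

lemma R2_pos {n : ℕ} (hn : 0 < n) : 0 < R2 n := by
  have h0 : (0 : ℝ) < n := by exact_mod_cast hn
  unfold R2; positivity

variable {F κ}

/-- closeness of the natural functions (also used for `cff`, `cfl`) -/
lemma Fam.near (hA : 0 < A) (hB : 0 < B) (hN : N45) {K : Set ℂ} (hK : K ⊆ Om2 A B) (hKc : IsCompact K)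
    {ε : ℝ} (hε : 0 < ε) : ∀ᶠ n in atTop, ∀ u v : ℤ × ℤ, lat u / (R2 n : ℂ) ∈ K →
      lat v / (R2 n : ℂ) ∈ K → ‖F.dL n (1 / 2) 1 u v‖ ≤ ε * R2 n ^ (2 / 3 : ℝ) ∧
        ‖F.dL n 0 (1 / 2) u v‖ ≤ ε * R2 n ^ (2 / 3 : ℝ) ∧
        ‖F.dU n (1 / 2) 1 u v‖ ≤ ε * R2 n ^ (2 / 3 : ℝ) ∧
        ‖F.dU n 0 (1 / 2) u v‖ ≤ ε * R2 n ^ (2 / 3 : ℝ) := by
  obtain ⟨η, hη, hw⟩ := F.work hA hB hK hKc
  obtain ⟨R0, h0⟩ := hN η hη ε hε
  filter_upwards [hw, eventually_ge_atTop R0] with n k1 k2 u v hu hv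
  obtain ⟨hn, hsc, -, hin⟩ := k1
  have i0 : ∀ v : ℤ × ℤ, lat v / (R2 n : ℂ) ∈ K → Inn (F.w n) (F.h n) (η * ((2 * n : ℕ) : ℝ)) v := by
    intro v hv
    have := hin v hv 0 le_rfl (by norm_num)
    rwa [sub_zero] at this
  have i1 : ∀ v : ℤ × ℤ, lat v / (R2 n : ℂ) ∈ K →
      Inn (F.w n) (F.h n) (η * ((2 * n : ℕ) : ℝ)) (v.1, v.2 - 1) := fun v hv =>
    hin v hv 1 (by norm_num) (by norm_num)
  have a := h0 (2 * n) (by omega) _ _ _ hsc false _ _ _ (F.lo_spec n 0 1) (F.lo_spec n (1 / 2) 1)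
    (F.lo_spec n 0 (1 / 2)) u v (i0 u hu) (i0 v hv)
  have b := h0 (2 * n) (by omega) _ _ _ hsc true _ _ _ (F.up_spec n 0 1) (F.up_spec n (1 / 2) 1)
    (F.up_spec n 0 (1 / 2)) _ _ (i1 u hu) (i1 v hv)
  rw [← R2_cast] at a b
  exact ⟨a.1, a.2, b.1, b.2⟩

/-- adjacent points -/
lemma Fam.adj (hA : 0 < A) (hB : 0 < B) (hM : M45) {K : Set ℂ} (hK : K ⊆ Om2 A B) (hKc : IsCompact K)
    {ε : ℝ} (hε : 0 < ε) : ∀ᶠ n in atTop, 0 < n ∧ ∀ v : ℤ × ℤ, lat v / (R2 n : ℂ) ∈ K →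
        ‖F.dL n (1 / 2) 1 v (v - uu)‖ ≤ ε * R2 n ^ (-(1 / 3) : ℝ) ∧
        ‖F.dL n 0 (1 / 2) v (v - uu)‖ ≤ ε * R2 n ^ (-(1 / 3) : ℝ) ∧
        ‖F.dU n (1 / 2) 1 v (v - uu)‖ ≤ ε * R2 n ^ (-(1 / 3) : ℝ) ∧
        ‖F.dU n 0 (1 / 2) v (v - uu)‖ ≤ ε * R2 n ^ (-(1 / 3) : ℝ) := by
  obtain ⟨η, hη, hw⟩ := F.work hA hB hK hKc
  obtain ⟨R0, h0⟩ := hM η hη ε hε
  filter_upwards [hw, eventually_ge_atTop R0] with n k1 k2
  obtain ⟨hn, hsc, -, hin⟩ := k1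
  refine ⟨hn, fun v hv => ?_⟩
  have i0 : Inn (F.w n) (F.h n) (η * ((2 * n : ℕ) : ℝ)) v := by
    have := hin v hv 0 le_rfl (by norm_num)
    rwa [sub_zero] at this
  have i1 := hin v hv 1 (by norm_num) (by norm_num)
  have i2 := hin v hv 2 (by norm_num) (by norm_num)
  have ev : v - uu = (v.1, v.2 - 1) := by
    apply Prod.ext <;> simp [uu]
  have a := h0 (2 * n) (by omega) _ _ _ hsc false _ _ _ (F.lo_spec n 0 1) (F.lo_spec n (1 / 2) 1)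
    (F.lo_spec n 0 (1 / 2)) v (v.1, v.2 - 1) rfl i0 i1
  have b := h0 (2 * n) (by omega) _ _ _ hsc true _ _ _ (F.up_spec n 0 1) (F.up_spec n (1 / 2) 1)
    (F.up_spec n 0 (1 / 2)) (v.1, v.2 - 1) (v.1, v.2 - 2) (by
      refine Prod.ext rfl ?_
      show v.2 - 2 = v.2 - 1 - 1
      ring) i1 i2
  rw [← R2_cast] at a b
  unfold Fam.dL Fam.dU
  rw [ev]
  simp only
  rw [show v.2 - 1 - 1 = v.2 - 2 by ring]
  exact ⟨a.1, a.2, b.1, b.2⟩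

/-- **`TrackIn` for one sequence of outsides.** -/
theorem Fam.trackIn (hA : 0 < A) (hB : 0 < B) (hκ : ∀ n, ‖κ n‖ = 1) (hAB : AB45) (hC : C45) (hN : N45)
    (hM : M45) : TrackIn R2 atTop (Om2 A B) (F.V κ) (F.e κ) (fun n => al (F.e κ n) (F.ff κ n))
      (fun n => be (F.e κ n) (F.fl κ n)) where
  ee := by
    intro K hK hKc ε hε
    obtain ⟨η, hη, hw⟩ := F.work hA hB hK hKc
    have hp : Tendsto (fun n : ℕ => R2 n ^ (-(2 / 3) : ℝ)) atTop (𝓝 0) :=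
      (tendsto_rpow_neg_atTop (by norm_num : (0 : ℝ) < 2 / 3)).comp R2_top
    filter_upwards [hw, Fam.near (F := F) hA hB hN hK hKc (ε := ε / 4) (by positivity), F.root,
      hp.eventually_lt_const (by positivity : (0 : ℝ) < ε / 4)] with n k1 k2 k3 k4 u v _ _ hu hv
    obtain ⟨hn, hsc, hd, hin⟩ := k1
    have hR := R2_pos hn
    obtain ⟨C, hS⟩ := S1_pot k3 (F.lo_spec n (1 / 2) 1) (F.up_spec n (1 / 2) 1)
    have pos : ∀ v : ℤ × ℤ, lat v / (R2 n : ℂ) ∈ K → 0 ≤ v.1 ∧ v.1 ≤ F.w n ∧ 1 ≤ v.2 ∧ v.2 ≤ F.h n := by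
      intro v hv
      have h0 := Inn.pos hd (hin v hv 0 le_rfl (by norm_num))
      simp only [sub_zero] at h0
      omega
    have pu := pos u hu
    have pv := pos v hv
    have e1 := hS u.1 (u.2 - 1) pu.1 pu.2.1 (by omega) (by omega)
    have e2 := hS v.1 (v.2 - 1) pv.1 pv.2.1 (by omega) (by omega)
    have m1 := F.edge pu
    have m2 := F.edge pv
    obtain ⟨a1, -, a3, -⟩ := k2 u v hu hv
    have e0 : F.e κ n u - F.e κ n v = κ n * nu n * (-(F.dL n (1 / 2) 1 u v) + F.dU n (1 / 2) 1 u v +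
        ((F.Lo n (1 / 2) 1 u.1 u.2 - F.Lo n (1 / 2) 1 u.1 (u.2 - 1)) -
          (F.Lo n (1 / 2) 1 v.1 v.2 - F.Lo n (1 / 2) 1 v.1 (v.2 - 1)))) := by
      unfold Fam.e Fam.dL Fam.dU inc2
      simp only
      rw [e1, e2]
      ring
    rw [e0, norm_knu κ hκ hn]
    have b1 : ‖-(F.dL n (1 / 2) 1 u v) + F.dU n (1 / 2) 1 u v +
        ((F.Lo n (1 / 2) 1 u.1 u.2 - F.Lo n (1 / 2) 1 u.1 (u.2 - 1)) -
          (F.Lo n (1 / 2) 1 v.1 v.2 - F.Lo n (1 / 2) 1 v.1 (v.2 - 1)))‖ ≤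
        ε / 4 * R2 n ^ (2 / 3 : ℝ) + ε / 4 * R2 n ^ (2 / 3 : ℝ) + 2 := by
      refine (norm_add_le _ _).trans (add_le_add ((norm_add_le _ _).trans (add_le_add ?_ a3)) ?_)
      · rw [norm_neg]; exact a1
      · refine (norm_sub_le _ _).trans ?_
        linarith
    have hp0 : 0 ≤ R2 n ^ (-(2 / 3) : ℝ) := by positivity
    calc R2 n ^ (-(2 / 3) : ℝ) * _ ≤ R2 n ^ (-(2 / 3) : ℝ) *
          (ε / 4 * R2 n ^ (2 / 3 : ℝ) + ε / 4 * R2 n ^ (2 / 3 : ℝ) + 2) :=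
          mul_le_mul_of_nonneg_left b1 hp0
      _ = ε / 2 * (R2 n ^ (-(2 / 3) : ℝ) * R2 n ^ (2 / 3 : ℝ)) + 2 * R2 n ^ (-(2 / 3) : ℝ) := by ring
      _ ≤ ε := by rw [pw hR]; linarith
  ab := by
    intro K hK hKc
    obtain ⟨η, hη, hw⟩ := F.work hA hB hK hKc
    obtain ⟨ρ1, hρ1, h0⟩ := hAB η hη
    refine ⟨ρ1, hρ1, fun ρ hρ hρl ε hε => ?_⟩
    obtain ⟨R0, h1⟩ := h0 ρ hρ hρl ε hε
    filter_upwards [hw, eventually_ge_atTop R0] with n k1 k2 t ht u v hu' hv' hu hv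
    obtain ⟨hn, hsc, hd, hin⟩ := k1
    have hR := R2_pos hn
    have i0 : ∀ v : ℤ × ℤ, lat v / (R2 n : ℂ) ∈ K → Inn (F.w n) (F.h n) (η * ((2 * n : ℕ) : ℝ)) v := by
      intro v hv
      have := hin v hv 0 le_rfl (by norm_num)
      rwa [sub_zero] at this
    have key := h1 (2 * n) (by omega) _ _ _ hsc t ht _ _ (F.lo_spec n _ _) (F.up_spec n _ _) u v
      hu' hv' (i0 u hu) (i0 v hv)
    rw [← R2_cast] at key
    have e0 : F.V κ n (rap ⌊ρ * R2 n⌋₊ t) u - F.V κ n (rap ⌊ρ * R2 n⌋₊ t) v = κ n * nu n *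
        (inc2 (F.Lo n (wa (rap ⌊ρ * R2 n⌋₊ t)) (wa (rap ⌊ρ * R2 n⌋₊ t + Real.pi / 2))) u v -
        inc2 (F.Up n (wa (rap ⌊ρ * R2 n⌋₊ t)) (wa (rap ⌊ρ * R2 n⌋₊ t + Real.pi / 2)))
          (u.1, u.2 - 1) (v.1, v.2 - 1)) := by
      unfold Fam.V inc2
      ring
    rw [e0, norm_knu κ hκ hn]
    calc R2 n ^ (-(2 / 3) : ℝ) * _ ≤ R2 n ^ (-(2 / 3) : ℝ) * (ε * R2 n ^ (2 / 3 : ℝ)) :=
          mul_le_mul_of_nonneg_left key (by positivity)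
      _ = ε * (R2 n ^ (-(2 / 3) : ℝ) * R2 n ^ (2 / 3 : ℝ)) := by ring
      _ = ε := by rw [pw hR, mul_one]
  cc := by
    intro K hK hKc
    obtain ⟨η, hη, hw⟩ := F.work hA hB hK hKc
    obtain ⟨C, c, hc, h0⟩ := hC η hη
    refine ⟨C, c, hc, fun ε hε Y => ?_⟩
    obtain ⟨ρ1, hρ1, h1⟩ := h0 (ε / 2) (by positivity) Y
    refine ⟨ρ1, hρ1, fun ρ hρ hρl => ?_⟩
    obtain ⟨R0, h2⟩ := h1 ρ hρ hρl
    filter_upwards [hw, eventually_ge_atTop R0, F.root] with n k1 k2 k3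
    obtain ⟨hn, hsc, hd, hin⟩ := k1
    have hR := R2_pos hn
    obtain ⟨G, hG, h3⟩ := h2 (2 * n) (by omega)
    refine ⟨G, hG, fun t ht u v _ _ hu hv => ?_⟩
    have i0 : ∀ v : ℤ × ℤ, lat v / (R2 n : ℂ) ∈ K → Inn (F.w n) (F.h n) (η * ((2 * n : ℕ) : ℝ)) v := by
      intro v hv
      have := hin v hv 0 le_rfl (by norm_num)
      rwa [sub_zero] at this
    have i1 : ∀ v : ℤ × ℤ, lat v / (R2 n : ℂ) ∈ K →
        Inn (F.w n) (F.h n) (η * ((2 * n : ℕ) : ℝ)) (v.1, v.2 - 1) := fun v hv =>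
      hin v hv 1 (by norm_num) (by norm_num)
    have pos : ∀ v : ℤ × ℤ, lat v / (R2 n : ℂ) ∈ K → 1 ≤ v.1 ∧ v.1 ≤ F.w n ∧ 1 ≤ v.2 ∧ v.2 ≤ F.h n :=
      fun v hv => Inn.pos hd (i0 v hv)
    have pu := pos u hu
    have pv := pos v hv
    have a := h3 _ _ _ hsc false t ht _ _ _ _ (F.lo_spec n _ _) (F.lo_spec n 0 1)
      (F.lo_spec n (1 / 2) 1) (F.lo_spec n 0 (1 / 2)) u v (i0 u hu) (i0 v hv)
    have b := h3 _ _ _ hsc true t ht _ _ _ _ (F.up_spec n _ _) (F.up_spec n 0 1)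
      (F.up_spec n (1 / 2) 1) (F.up_spec n 0 (1 / 2)) _ _ (i1 u hu) (i1 v hv)
    rw [← R2_cast] at a b
    have eA := F.al_sub κ k3 (u := u) (v := v) (by omega) (by omega)
    have eB := F.be_sub κ k3 (u := u) (v := v) (by omega) (by omega)
    set φ := rap ⌊ρ * R2 n⌋₊ t with hφ
    set g1 := G (pt t) with hg1
    set g2 := G (pt t + (Real.pi / 2 : ℝ)) with hg2
    have e0 : (F.V κ n φ u - F.V κ n φ v) - (F.e κ n u - F.e κ n v) - (⌊ρ * R2 n⌋₊ : ℂ) *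
        (g1 * (al (F.e κ n) (F.ff κ n) u - al (F.e κ n) (F.ff κ n) v) +
        g2 * (be (F.e κ n) (F.fl κ n) u - be (F.e κ n) (F.fl κ n) v)) = κ n * nu n *
        ((inc2 (F.Lo n (wa φ) (wa (φ + Real.pi / 2))) u v - inc2 (F.Lo n 0 1) u v -
          (⌊ρ * R2 n⌋₊ : ℂ) * (g1 * (inc2 (F.Lo n (1 / 2) 1) u v - inc2 (F.Lo n 0 1) u v) +
            g2 * (inc2 (F.Lo n 0 (1 / 2)) u v - inc2 (F.Lo n 0 1) u v))) -
        (inc2 (F.Up n (wa φ) (wa (φ + Real.pi / 2))) (u.1, u.2 - 1) (v.1, v.2 - 1) -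
          inc2 (F.Up n 0 1) (u.1, u.2 - 1) (v.1, v.2 - 1) -
          (⌊ρ * R2 n⌋₊ : ℂ) * (g1 * (inc2 (F.Up n (1 / 2) 1) (u.1, u.2 - 1) (v.1, v.2 - 1) -
            inc2 (F.Up n 0 1) (u.1, u.2 - 1) (v.1, v.2 - 1)) +
            g2 * (inc2 (F.Up n 0 (1 / 2)) (u.1, u.2 - 1) (v.1, v.2 - 1) -
              inc2 (F.Up n 0 1) (u.1, u.2 - 1) (v.1, v.2 - 1))))) := by
      rw [eA, eB]
      unfold Fam.V Fam.e Fam.dL Fam.dU inc2
      ring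
    have e1 : (F.V κ n φ u - F.V κ n φ v) - (F.e κ n u - F.e κ n v) - (⌊ρ * R2 n⌋₊ : ℂ) *
        (G (pt t) * ((fun n => al (F.e κ n) (F.ff κ n)) n u - (fun n => al (F.e κ n) (F.ff κ n)) n v) +
        G (pt t + (Real.pi / 2 : ℝ)) * ((fun n => be (F.e κ n) (F.fl κ n)) n u -
          (fun n => be (F.e κ n) (F.fl κ n)) n v)) =
      (F.V κ n φ u - F.V κ n φ v) - (F.e κ n u - F.e κ n v) - (⌊ρ * R2 n⌋₊ : ℂ) *
        (g1 * (al (F.e κ n) (F.ff κ n) u - al (F.e κ n) (F.ff κ n) v) +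
        g2 * (be (F.e κ n) (F.fl κ n) u - be (F.e κ n) (F.fl κ n) v)) := rfl
    rw [e1, e0, norm_knu κ hκ hn]
    calc R2 n ^ (-(2 / 3) : ℝ) * _ ≤ R2 n ^ (-(2 / 3) : ℝ) *
          (ε / 2 * ρ * R2 n ^ (2 / 3 : ℝ) + ε / 2 * ρ * R2 n ^ (2 / 3 : ℝ)) :=
          mul_le_mul_of_nonneg_left ((norm_sub_le _ _).trans (add_le_add a b)) (by positivity)
      _ = ε * ρ * (R2 n ^ (-(2 / 3) : ℝ) * R2 n ^ (2 / 3 : ℝ)) := by ring
      _ = ε * ρ := by rw [pw hR, mul_one]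
  adA := by
    intro K hK hKc ε hε
    obtain ⟨η, hη, hw⟩ := F.work hA hB hK hKc
    filter_upwards [Fam.adj (F := F) hA hB hM hK hKc (ε := ε / 2) (by positivity), F.root, hw] with
      n k1 k2 k3 v hv
    obtain ⟨hn, hk⟩ := k1
    have hR := R2_pos hn
    obtain ⟨-, -, hd, hin⟩ := k3
    obtain ⟨a1, -, a3, -⟩ := hk v hv
    have p0 := Inn.pos hd (hin v hv 0 le_rfl (by norm_num))
    have p1 := Inn.pos hd (hin v hv 1 (by norm_num) (by norm_num))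
    simp only [sub_zero] at p0 p1
    have ev : v - uu = (v.1, v.2 - 1) := by apply Prod.ext <;> simp [uu]
    have e0 := F.al_sub κ k2 (u := v) (v := v - uu) (by omega) (by rw [ev]; simp only; omega)
    show ‖al (F.e κ n) (F.ff κ n) v - al (F.e κ n) (F.ff κ n) (v - uu)‖ ≤ ε / R2 n
    rw [e0, norm_knu κ hκ hn]
    calc R2 n ^ (-(2 / 3) : ℝ) * _ ≤ R2 n ^ (-(2 / 3) : ℝ) *
          (ε / 2 * R2 n ^ (-(1 / 3) : ℝ) + ε / 2 * R2 n ^ (-(1 / 3) : ℝ)) :=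
          mul_le_mul_of_nonneg_left ((norm_sub_le _ _).trans (add_le_add a1 a3)) (by positivity)
      _ = ε * (R2 n ^ (-(2 / 3) : ℝ) * R2 n ^ (-(1 / 3) : ℝ)) := by ring
      _ = ε / R2 n := by rw [pw' hR]; ring
  adB := by
    intro K hK hKc ε hε
    obtain ⟨η, hη, hw⟩ := F.work hA hB hK hKc
    filter_upwards [Fam.adj (F := F) hA hB hM hK hKc (ε := ε / 2) (by positivity), F.root, hw] with
      n k1 k2 k3 v hv
    obtain ⟨hn, hk⟩ := k1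
    have hR := R2_pos hn
    obtain ⟨-, -, hd, hin⟩ := k3
    obtain ⟨-, a2, -, a4⟩ := hk v hv
    have p0 := Inn.pos hd (hin v hv 0 le_rfl (by norm_num))
    have p1 := Inn.pos hd (hin v hv 1 (by norm_num) (by norm_num))
    simp only [sub_zero] at p0 p1
    have ev : v - uu = (v.1, v.2 - 1) := by apply Prod.ext <;> simp [uu]
    have e0 := F.be_sub κ k2 (u := v) (v := v - uu) (by omega) (by rw [ev]; simp only; omega)
    show ‖be (F.e κ n) (F.fl κ n) v - be (F.e κ n) (F.fl κ n) (v - uu)‖ ≤ ε / R2 n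
    rw [e0, norm_knu κ hκ hn]
    calc R2 n ^ (-(2 / 3) : ℝ) * _ ≤ R2 n ^ (-(2 / 3) : ℝ) *
          (ε / 2 * R2 n ^ (-(1 / 3) : ℝ) + ε / 2 * R2 n ^ (-(1 / 3) : ℝ)) :=
          mul_le_mul_of_nonneg_left ((norm_sub_le _ _).trans (add_le_add a2 a4)) (by positivity)
      _ = ε * (R2 n ^ (-(2 / 3) : ℝ) * R2 n ^ (-(1 / 3) : ℝ)) := by ring
      _ = ε / R2 n := by rw [pw' hR]; ring

end Pool.Agent.H95.R45
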