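import Mathlib
import Pool.Agent.H74.R45.MirA
import Pool.Agent.H95.R45.TrackIn
import Pool.Agent.H95.R45.Prim

set_option autoImplicit false
open Finset Filter Topology

/-!
# 45 degree rectangles: `Half` for one sequence of outsides
-/

namespace Pool.Agent.H95.R45

open Pool.Agent.H75.TwoArm Pool.Agent.Q1 Pool.Agent.H33.Q1
open Pool.Agent.H74.R45 Pool.Agent.H64.Q1 Pool.Agent.Q1.M6f.Glue Pool.Agent.H25.Q1.Close
open Pool.Agent.Q1.M6f
open Pool.Agent.Q1.M4 (lat)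
open Pool.Agent.Q1.M6e (OFar Inn inc2)
open Pool.Agent.H21.FM (GPrim)

variable {A B : ℕ} (F : Fam A B)

/-- normalisation -/
noncomputable def NR (n : ℕ) : ℝ := R2 n ^ (-(2 / 3) : ℝ)

lemma nu_eq (n : ℕ) : nu n = (NR n : ℂ) := rfl

/-- `V` without a phase -/
noncomputable def Fam.V1 (n : ℕ) (φ : ℂ) (v : ℤ × ℤ) : ℂ := F.V (fun _ => 1) n φ v

lemma Fam.e_one : F.e (fun _ => 1) = fun n => ne (NR n) (F.Lo n 0 1) (F.Up n 0 1) := by
  funext n v
  unfold Fam.e ne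
  rw [nu_eq, one_mul]

lemma Fam.ff_one : F.ff (fun _ => 1) = fun n => nf (NR n) (F.Lo n (1 / 2) 1) := by
  funext n v
  unfold Fam.ff nf
  rw [nu_eq, one_mul]

lemma Fam.fl_one : F.fl (fun _ => 1) = fun n => nf (NR n) (F.Lo n 0 (1 / 2)) := by
  funext n v
  unfold Fam.fl nf
  rw [nu_eq, one_mul]

/-- nearby points of a compact set stay in a compact set -/
lemma near_cpt {K : Set ℂ} (hK : K ⊆ Om2 A B) (hKc : IsCompact K) :
    ∃ K' ⊆ Om2 A B, IsCompact K' ∧ ∀ᶠ n in atTop, ∀ u : ℤ × ℤ, lat u / (R2 n : ℂ) ∈ K →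
      ∀ d : ℤ × ℤ, |d.1| ≤ 1 → |d.2| ≤ 1 → lat (u + d) / (R2 n : ℂ) ∈ K' := by
  obtain ⟨s, hs, hsub⟩ := hKc.exists_cthickening_subset_open (isOpen_Om2 A B) hK
  refine ⟨_, hsub, hKc.cthickening, ?_⟩
  filter_upwards [R2_top.eventually_gt_atTop 0, R2_top.eventually_ge_atTop (2 / s)] with n h1 h2 u hu d
    d1 d2
  refine Metric.mem_cthickening_of_dist_le _ _ s _ hu ?_
  have e : lat (u + d) / (R2 n : ℂ) - lat u / (R2 n : ℂ) = lat d / (R2 n : ℂ) := by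
    rw [← sub_div]
    congr 1
    unfold lat
    apply Complex.ext <;> simp
  rw [dist_eq_norm, e, norm_div, Complex.norm_real, Real.norm_of_nonneg h1.le, div_le_iff₀ h1]
  have h3 : ‖lat d‖ ≤ 2 := by
    refine (Complex.norm_le_abs_re_add_abs_im _).trans ?_
    have a1 : |(lat d).re| ≤ 1 := by
      show |(d.1 : ℝ)| ≤ 1
      exact_mod_cast d1
    have a2 : |(lat d).im| ≤ 1 := by
      show |(d.2 : ℝ)| ≤ 1
      exact_mod_cast d2
    linarith
  rw [div_le_iff₀ hs] at h2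
  linarith

/-- potentials in the form `Pot` -/
lemma dl_pot {w h : ℤ} {O : Out w h} {Ha Hn : ℤ → ℤ → ℂ} (ha : Pot (fun c => (XA O).inc c) Ha 0 w 0 h)
    (hn : Pot (fun c => (XN O).inc c) Hn 0 w 0 h) : GPrim (XA O) (fun p => Ha p.1 p.2) ∧
      GPrim (XN O) (fun p => Hn p.1 p.2) :=
  ⟨gprim_of_pot (X := XA O) rfl ha fun _ _ => rfl, gprim_of_pot (X := XN O) rfl hn fun _ _ => rfl⟩

variable {F}

/-- the displacement of the mark is small -/
theorem Fam.sm (hA : 0 < A) (hB : 0 < B) (hD : DL45) {Ha Hn : ℕ → ℤ → ℤ → ℂ}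
    (ha : ∀ᶠ n in atTop, Pot (fun c => (XA (F.O n)).inc c) (Ha n) 0 (F.w n) 0 (F.h n))
    (hn : ∀ᶠ n in atTop, Pot (fun c => (XN (F.O n)).inc c) (Hn n) 0 (F.w n) 0 (F.h n)) :
    Sm R2 atTop (Om2 A B) (fun n => nf (NR n) (Ha n - Hn n)) := by
  intro K hK hKc ε hε
  obtain ⟨η, hη, hw⟩ := F.work hA hB hK hKc
  obtain ⟨C, R0, h0⟩ := hD η hη
  have hp : Tendsto (fun n : ℕ => R2 n ^ (-(1 / 3) : ℝ)) atTop (𝓝 0) :=
    (tendsto_rpow_neg_atTop (by norm_num : (0 : ℝ) < 1 / 3)).comp R2_top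
  filter_upwards [hw, eventually_ge_atTop R0, ha, hn,
    hp.eventually_lt_const (by positivity : (0 : ℝ) < ε / (|C| + 1))] with n k1 k2 k3 k4 k5 u v hu hv
  obtain ⟨hn0, hsc, -, hin⟩ := k1
  have hR := R2_pos hn0
  have i0 : ∀ v : ℤ × ℤ, lat v / (R2 n : ℂ) ∈ K → Inn (F.w n) (F.h n) (η * ((2 * n : ℕ) : ℝ)) v := by
    intro v hv
    have := hin v hv 0 le_rfl (by norm_num)
    rwa [sub_zero] at this
  obtain ⟨ga, gn⟩ := dl_pot k3 k4
  have key := h0 (2 * n) (by omega) _ _ _ hsc _ _ ga gn u v (i0 u hu) (i0 v hv)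
  rw [← R2_cast] at key
  have e0 : nf (NR n) (Ha n - Hn n) u - nf (NR n) (Ha n - Hn n) v = (NR n : ℂ) *
      ((Ha n u.1 u.2 - Ha n v.1 v.2) - (Hn n u.1 u.2 - Hn n v.1 v.2)) := by
    unfold nf
    simp only [Pi.sub_apply]
    ring
  have hN : 0 < NR n := by unfold NR; positivity
  rw [e0, norm_mul, Complex.norm_real, Real.norm_of_nonneg hN.le]
  have h1 : R2 n ^ (-(2 / 3) : ℝ) * R2 n ^ (-(2 / 3) : ℝ) = R2 n ^ (-(1 / 3) : ℝ) * (1 / R2 n) := by
    rw [← pw' hR, ← Real.rpow_add hR, ← Real.rpow_add hR, ← Real.rpow_add hR]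
    norm_num
  have hC : C ≤ |C| + 1 := (le_abs_self C).trans (by linarith)
  have hC0 : 0 < |C| + 1 := by positivity
  calc NR n * _ ≤ NR n * (C * R2 n ^ (-(2 / 3) : ℝ)) := mul_le_mul_of_nonneg_left key hN.le
    _ = C * (R2 n ^ (-(2 / 3) : ℝ) * R2 n ^ (-(2 / 3) : ℝ)) := by unfold NR; ring
    _ = C * (R2 n ^ (-(1 / 3) : ℝ) * (1 / R2 n)) := by rw [h1]
    _ ≤ (|C| + 1) * (R2 n ^ (-(1 / 3) : ℝ) * (1 / R2 n)) :=
        mul_le_mul_of_nonneg_right hC (by positivity)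
    _ ≤ (|C| + 1) * (ε / (|C| + 1) * (1 / R2 n)) := by
        refine mul_le_mul_of_nonneg_left (mul_le_mul_of_nonneg_right k5.le (by positivity)) hC0.le
    _ = ε / R2 n := by field_simp

/-- **The natural rectangle and the real environments.** -/
theorem Fam.nat (hA : 0 < A) (hB : 0 < B) (hN : N45) (hD : DL45) {Hn : ℕ → ℤ → ℤ → ℂ}
    (hn : ∀ᶠ n in atTop, Pot (fun c => (XN (F.O n)).inc c) (Hn n) 0 (F.w n) 0 (F.h n))
    {K : Set ℂ} (hK : K ⊆ Om2 A B) (hKc : IsCompact K) {τ : ℝ} (hτ : 0 < τ) :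
    ∀ᶠ n in atTop, Cls {v | lat v / (R2 n : ℂ) ∈ K} τ (nf (NR n) (Hn n))
        (nf (NR n) (F.Lo n (1 / 2) 1)) ∧
      Cls {v | lat v / (R2 n : ℂ) ∈ K} τ (nf (NR n) (Hn n)) (nf (NR n) (F.Lo n 0 (1 / 2))) := by
  obtain ⟨K', hK', hKc', hnear⟩ := near_cpt hK hKc
  obtain ⟨η, hη, hw⟩ := F.work hA hB hK' hKc'
  obtain ⟨C, R0, h0⟩ := hD η hη
  have hp : Tendsto (fun n : ℕ => R2 n ^ (-(2 / 3) : ℝ)) atTop (𝓝 0) :=
    (tendsto_rpow_neg_atTop (by norm_num : (0 : ℝ) < 2 / 3)).comp R2_top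
  filter_upwards [hw, hnear, Fam.near (F := F) hA hB hN hK' hKc' (ε := τ / 4) (by positivity), F.root,
    hn, eventually_ge_atTop R0, R2_top.eventually_ge_atTop 1,
    hp.eventually_lt_const (by positivity : (0 : ℝ) < τ / (4 * (|C| + 4)))] with
    n k1 k2 k3 k4 k5 k6 k7 k8
  obtain ⟨hn0, hsc, hd, hin⟩ := k1
  have hR := R2_pos hn0
  have i0 : ∀ v : ℤ × ℤ, lat v / (R2 n : ℂ) ∈ K' → Inn (F.w n) (F.h n) (η * ((2 * n : ℕ) : ℝ)) v := by
    intro v hv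
    have := hin v hv 0 le_rfl (by norm_num)
    rwa [sub_zero] at this
  obtain ⟨Ha, hga⟩ := exists_XA k4
  have hgn : GPrim (XN (F.O n)) (fun p => Hn n p.1 p.2) :=
    gprim_of_pot (X := XN (F.O n)) rfl k5 fun _ _ => rfl
  obtain ⟨C3, h3⟩ := S3_pot k4 (F.lo_spec n 0 1) hga
  have hw0 := (F.O n).hw
  have hh0 := (F.O n).hh
  have hN : 0 < NR n := by unfold NR; positivity
  -- the common estimate
  have core : ∀ (g : ℤ → ℤ → ℂ), (∀ u v : ℤ × ℤ, lat u / (R2 n : ℂ) ∈ K' → lat v / (R2 n : ℂ) ∈ K' →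
      ‖inc2 g u v - inc2 (F.Lo n 0 1) u v‖ ≤ τ / 4 * R2 n ^ (2 / 3 : ℝ)) →
      Cls {v | lat v / (R2 n : ℂ) ∈ K} τ (nf (NR n) (Hn n)) (nf (NR n) g) := by
    intro g hg u hu v hv d d1 d2
    have hu0 := k2 u hu 0 (by simp) (by simp)
    have hv0 := k2 v hv 0 (by simp) (by simp)
    rw [add_zero] at hu0 hv0
    have hud := k2 u hu d d1 d2
    have hvd := k2 v hv d d1 d2
    have m1 := hg _ _ hud hvd
    have m2 := h0 (2 * n) (by omega) _ _ _ hsc _ _ hga hgn (u + d) (v + d) (i0 _ hud) (i0 _ hvd)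
    rw [← R2_cast] at m2
    have pu := Inn.pos hd (i0 _ hu0)
    have pv := Inn.pos hd (i0 _ hv0)
    have qu := Inn.pos hd (i0 _ hud)
    have qv := Inn.pos hd (i0 _ hvd)
    have lt1 : ∀ z : ℤ × ℤ, lat z / (R2 n : ℂ) ∈ K' → 0 < z.1 ∧ z.1 < F.w n ∧ 0 < z.2 ∧ z.2 < F.h n := by
      intro z hz
      obtain ⟨a1, a2, a3, a4⟩ := i0 z hz
      refine ⟨?_, ?_, ?_, ?_⟩
      · have : (0 : ℝ) < z.1 := by linarith
        exact_mod_cast this
      · have : (z.1 : ℝ) < F.w n := by linarith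
        exact_mod_cast this
      · have : (0 : ℝ) < z.2 := by linarith
        exact_mod_cast this
      · have : (z.2 : ℝ) < F.h n := by linarith
        exact_mod_cast this
    have lu := lt1 u hu0
    have lv := lt1 v hv0
    have m3 := gprim_near (X := XN (F.O n)) rfl (by omega) (by omega) hgn lu.1 lu.2.1 lu.2.2.1
      lu.2.2.2 d1 d2
    have m4 := gprim_near (X := XN (F.O n)) rfl (by omega) (by omega) hgn lv.1 lv.2.1 lv.2.2.1
      lv.2.2.2 d1 d2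
    have e3 : inc2 (F.Lo n 0 1) (u + d) (v + d) = Ha (u + d) - Ha (v + d) := by
      unfold inc2
      rw [h3 _ _ (by omega) (by omega) (by omega) (by omega), h3 _ _ (by omega) (by omega) (by omega)
        (by omega)]
      show Ha (u + d) + C3 - (Ha (v + d) + C3) = _
      ring
    rw [e3] at m1
    have e0 : nf (NR n) g (u + d) - nf (NR n) g (v + d) - (nf (NR n) (Hn n) u - nf (NR n) (Hn n) v) =
        (NR n : ℂ) * ((inc2 g (u + d) (v + d) - (Ha (u + d) - Ha (v + d))) +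
          ((Ha (u + d) - Ha (v + d)) -
            (Hn n (u + d).1 (u + d).2 - Hn n (v + d).1 (v + d).2)) +
          ((Hn n (u + d).1 (u + d).2 - Hn n u.1 u.2) - (Hn n (v + d).1 (v + d).2 - Hn n v.1 v.2))) := by
      unfold nf inc2
      ring
    rw [e0, norm_mul, Complex.norm_real, Real.norm_of_nonneg hN.le]
    have hx : R2 n ^ (-(2 / 3) : ℝ) ≤ 1 := Real.rpow_le_one_of_one_le_of_nonpos k7 (by norm_num)
    have hx0 : 0 < R2 n ^ (-(2 / 3) : ℝ) := by positivity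
    have hC0 : C * R2 n ^ (-(2 / 3) : ℝ) ≤ |C| := by
      calc C * R2 n ^ (-(2 / 3) : ℝ) ≤ |C| * R2 n ^ (-(2 / 3) : ℝ) :=
            mul_le_mul_of_nonneg_right (le_abs_self C) hx0.le
        _ ≤ |C| * 1 := mul_le_mul_of_nonneg_left hx (abs_nonneg C)
        _ = |C| := mul_one _
    have m5 : ‖(inc2 g (u + d) (v + d) - (Ha (u + d) - Ha (v + d))) +
          ((Ha (u + d) - Ha (v + d)) -
            (Hn n (u + d).1 (u + d).2 - Hn n (v + d).1 (v + d).2)) +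
          ((Hn n (u + d).1 (u + d).2 - Hn n u.1 u.2) -
            (Hn n (v + d).1 (v + d).2 - Hn n v.1 v.2))‖ ≤
        τ / 4 * R2 n ^ (2 / 3 : ℝ) + (|C| + 4) := by
      refine (norm_add_le _ _).trans ?_
      have n1 := norm_add_le (inc2 g (u + d) (v + d) - (Ha (u + d) - Ha (v + d)))
        ((Ha (u + d) - Ha (v + d)) - (Hn n (u + d).1 (u + d).2 - Hn n (v + d).1 (v + d).2))
      have n2 := norm_sub_le (Hn n (u + d).1 (u + d).2 - Hn n u.1 u.2)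
        (Hn n (v + d).1 (v + d).2 - Hn n v.1 v.2)
      linarith
    have hpos : 0 < |C| + 4 := by positivity
    calc NR n * _ ≤ NR n * (τ / 4 * R2 n ^ (2 / 3 : ℝ) + (|C| + 4)) :=
          mul_le_mul_of_nonneg_left m5 hN.le
      _ = τ / 4 * (R2 n ^ (-(2 / 3) : ℝ) * R2 n ^ (2 / 3 : ℝ)) +
          R2 n ^ (-(2 / 3) : ℝ) * (|C| + 4) := by unfold NR; ring
      _ ≤ τ / 4 + τ / (4 * (|C| + 4)) * (|C| + 4) := by
          rw [pw hR, mul_one]
          exact add_le_add le_rfl (mul_le_mul_of_nonneg_right k8.le hpos.le)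
      _ = τ / 4 + τ / 4 := by field_simp
      _ ≤ τ := by linarith
  exact ⟨core _ fun u v hu hv => (k3 u v hu hv).1, core _ fun u v hu hv => (k3 u v hu hv).2.1⟩

/-- **`Half` for one sequence of outsides.** -/
theorem Fam.half (hA : 0 < A) (hB : 0 < B) (hAB : AB45) (hC : C45) (hN : N45) (hM : M45) (hD : DL45)
    {Hn : ℕ → ℤ → ℤ → ℂ}
    (hn : ∀ᶠ n in atTop, Pot (fun c => (XN (F.O n)).inc c) (Hn n) 0 (F.w n) 0 (F.h n)) :
    Half R2 atTop (Om2 A B) (fun n => nf (NR n) (Hn n))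
      (fun n => ne (NR n) (F.Lo n 0 1) (F.Up n 0 1)) (fun n => nf (NR n) (F.Lo n (1 / 2) 1))
      (fun n => nf (NR n) (F.Lo n 0 (1 / 2))) (F.V fun _ => 1) where
  cff := fun K hK hKc τ hτ => (Fam.nat hA hB hN hD hn hK hKc hτ).mono fun n h => h.1
  cfl := fun K hK hKc τ hτ => (Fam.nat hA hB hN hD hn hK hKc hτ).mono fun n h => h.2
  t := by
    have := Fam.trackIn (F := F) (κ := fun _ => 1) hA hB (by simp) hAB hC hN hM
    rw [F.e_one, F.ff_one, F.fl_one] at this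
    exact this

end Pool.Agent.H95.R45
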