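import Mathlib
import Pool.Agent.H95.R45.HalfR
import Pool.Agent.H95.R45.GeoR
import Pool.Agent.Q1.M6f.GlueHol3

set_option autoImplicit false
open Finset Filter Topology

/-!
# 45 degree rectangles: `Tracks3` and `Hol3` for the rectangle shapes
-/

namespace Pool.Agent.H95.R45

open Pool.Agent.H75.Perc hiding ph
open Pool.Agent.H75.TwoArm Pool.Agent.Q1 Pool.Agent.H33.Q1
open Pool.Agent.H74.R45 Pool.Agent.H33.R45 Pool.Agent.H64.Q1 Pool.Agent.Q1.M6f.Glue
open Pool.Agent.Q1.M6f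
open Pool.Agent.Q1.M4 (lat Om)
open Pool.Agent.Q1.M6e (OFar Inn inc2)
open Pool.Agent.H21.FM (GPrim Shape IsEnv Tri3 Hol3 nrm bp)
open Pool.Agent.H87.FM (gx Rs)
open Pool.Agent.H57.FM (RS)
open Pool.Agent.H44.FM (OpenCase DualCase)
open Pool.Agent.Q1.M6c (PlaneK)

/-- **A sequence of mirror pairs of outsides.** -/
structure Fam2 (A B : ℕ) extends Fam A B where
  O' : ∀ n, Out (w n) (h n)
  root' : ∀ᶠ n in atTop, RootOut (O' n)
  far' : ∀ᶠ n in atTop, OFar (O' n) (2 * n)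
  mir : ∀ᶠ n in atTop, OutM (O n) (O' n)

/-- the mirrored family -/
def Fam2.m {A B : ℕ} (F : Fam2 A B) : Fam A B where
  w := F.w
  h := F.h
  O := F.O'
  hw := F.hw
  hh := F.hh
  root := F.root'
  far := F.far'

variable {A B : ℕ}

lemma Om2_mir {z : ℂ} (hz : z ∈ Om2 A B) : ((A : ℝ) : ℂ) - (starRingEnd ℂ) z ∈ Om2 A B := by
  obtain ⟨⟨h1, h2⟩, h3, h4⟩ := hz
  refine ⟨⟨?_, ?_⟩, ?_, ?_⟩ <;> simp <;> assumption

lemma Fam.mirOK (F : Fam A B) : MirOK R2 atTop (Om2 A B) F.w := by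
  refine mirOK_of (a := (A : ℝ)) (fun z hz => Om2_mir hz) ?_
  filter_upwards [F.hw, eventually_gt_atTop 0] with n h1 h2
  refine ⟨R2_pos h2, ?_⟩
  rw [h1]
  unfold R2
  push_cast
  ring

lemma Fam.rg (F : Fam A B) (hA : 0 < A) (hB : 0 < B) {K : Set ℂ} (hK : K ⊆ Om2 A B)
    (hKc : IsCompact K) : ∀ᶠ n in atTop, ∀ v : ℤ × ℤ, lat v / (R2 n : ℂ) ∈ K →
      Rg (F.w n) (F.h n) v := by
  obtain ⟨η, hη, hw⟩ := F.work hA hB hK hKc
  filter_upwards [hw] with n k1 v hv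
  obtain ⟨-, -, hd, hin⟩ := k1
  have h0 := Inn.pos hd (hin v hv 0 le_rfl (by norm_num))
  simp only [sub_zero] at h0
  exact ⟨by omega, by omega, by omega, by omega⟩

/-- natural environments have potentials -/
lemma exists_XN (hA : 0 < A) (hB : 0 < B) {n : ℕ} (hn : 0 < n) {w h : ℤ} (O : Out w h)
    (hw : w = 2 * n * A) (hh : h = 2 * n * B) : ∃ H, Pot (fun c => (XN O).inc c) H 0 w 0 h := by
  have hE : (XN O).E = Pool.Agent.H33.Q1.TL (RS A B hA hB).P.Q (2 * n) := by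
    have := EE_RS (a := A) (b := B) (ha := hA) (hb := hB) hn
    unfold Pool.Agent.H21.FM.EE at this
    rw [this, ← hw, ← hh]
    rfl
  obtain ⟨H, hH⟩ := Pool.Agent.H76.FM.exGPrim (RS A B hA hB).P n (XN O) hn hE
  have h1 := O.hw
  have h2 := O.hh
  exact ⟨_, pot_of_gprim (X := XN O) rfl (by omega) (by omega) hH⟩

/-- **The tracks of one environment.** -/
theorem Fam2.tracks (F : Fam2 A B) (hA : 0 < A) (hB : 0 < B) (hAB : AB45) (hC : C45) (hN : N45)
    (hM : M45) (hD : DL45) {X : ℕ → Env} {H : ℕ → ℤ × ℤ → ℂ}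
    (hX : ∀ᶠ n in atTop, GPrim (X n) (H n) ∧ (X n).E = RT 0 (F.w n) 0 (F.h n) ∧
      ∃ k : ℤ, ∀ c, (lab c ∈ RT 0 (F.w n) 0 (F.h n) ∨ plab c ∈ RT 0 (F.w n) 0 (F.h n)) →
        (XN (F.O n)).inc c = ph k * (X n).inc c) {z0 : ℕ → ℤ × ℤ} :
    ∃ (e ff fl e' ff' fr : ℕ → ℤ × ℤ → ℂ) (V V' : ℕ → ℂ → ℤ × ℤ → ℂ),
      Tracks R2 atTop (Om2 A B) (fun n p => (NR n : ℂ) * (H n p - H n (z0 n))) e ff fl e' ff' fr
        V V' := by
  classical
  -- the phase
  obtain ⟨k, hk⟩ : ∃ k : ℕ → ℤ, ∀ᶠ n in atTop, GPrim (X n) (H n) ∧ (X n).E = RT 0 (F.w n) 0 (F.h n) ∧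
      ∀ c, (lab c ∈ RT 0 (F.w n) 0 (F.h n) ∨ plab c ∈ RT 0 (F.w n) 0 (F.h n)) →
        (XN (F.O n)).inc c = ph (k n) * (X n).inc c := by
    refine ⟨fun n => if h : ∃ k : ℤ, ∀ c, (lab c ∈ RT 0 (F.w n) 0 (F.h n) ∨
      plab c ∈ RT 0 (F.w n) 0 (F.h n)) → (XN (F.O n)).inc c = ph k * (X n).inc c then h.choose
      else 0, ?_⟩
    filter_upwards [hX] with n h1
    obtain ⟨h1, h2, h3⟩ := h1
    refine ⟨h1, h2, ?_⟩
    rw [dif_pos h3]
    exact h3.choose_spec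
  set κ : ℕ → ℂ := fun n => (ph (k n))⁻¹ with hκd
  have hκ : ∀ n, ‖κ n‖ = 1 := fun n => by rw [hκd]; simp only; rw [norm_inv, ph_norm, inv_one]
  set Hn : ℕ → ℤ → ℤ → ℂ := fun n x y => ph (k n) * H n (x, y) with hHn
  have pn : ∀ᶠ n in atTop, Pot (fun c => (XN (F.O n)).inc c) (Hn n) 0 (F.w n) 0 (F.h n) := by
    filter_upwards [hk] with n h1
    obtain ⟨h1, h2, h3⟩ := h1
    have hw0 := (F.O n).hw
    have hh0 := (F.O n).hh
    have : GPrim (XN (F.O n)) (fun p => ph (k n) * H n p) := by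
      intro c hc
      have hc' : lab c ∈ RT 0 (F.w n) 0 (F.h n) ∨ plab c ∈ RT 0 (F.w n) 0 (F.h n) := hc
      rw [h3 c hc', ← mul_sub, h1 c (by rw [h2]; exact hc')]
    exact pot_of_gprim (X := XN (F.O n)) rfl (by omega) (by omega) this
  -- potentials of the other environments
  obtain ⟨Hn', pn'⟩ : ∃ Hn' : ℕ → ℤ → ℤ → ℂ, ∀ᶠ n in atTop,
      Pot (fun c => (XN (F.O' n)).inc c) (Hn' n) 0 (F.w n) 0 (F.h n) := by
    refine ⟨fun n => if h : ∃ H, Pot (fun c => (XN (F.O' n)).inc c) H 0 (F.w n) 0 (F.h n) then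
      h.choose else 0, ?_⟩
    filter_upwards [F.hw, F.hh, eventually_gt_atTop 0] with n h1 h2 h3
    have h4 := exists_XN hA hB h3 (F.O' n) h1 h2
    rw [dif_pos h4]
    exact h4.choose_spec
  have exA : ∀ G : Fam A B, ∃ Ha : ℕ → ℤ → ℤ → ℂ, ∀ᶠ n in atTop,
      Pot (fun c => (XA (G.O n)).inc c) (Ha n) 0 (G.w n) 0 (G.h n) := by
    intro G
    refine ⟨fun n => if h : ∃ H, Pot (fun c => (XA (G.O n)).inc c) H 0 (G.w n) 0 (G.h n) then
      h.choose else 0, ?_⟩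
    filter_upwards [G.root] with n h1
    have h4 : ∃ H, Pot (fun c => (XA (G.O n)).inc c) H 0 (G.w n) 0 (G.h n) := by
      obtain ⟨Ha, h5⟩ := exists_XA h1
      have hw0 := (G.O n).hw
      have hh0 := (G.O n).hh
      exact ⟨_, pot_of_gprim (X := XA (G.O n)) rfl (by omega) (by omega) h5⟩
    rw [dif_pos h4]
    exact h4.choose_spec
  obtain ⟨Ha, pa⟩ := exA F.toFam
  obtain ⟨Ha', pa'⟩ := exA F.m
  -- the two halves
  have half1 := Fam.half (F := F.toFam) hA hB hAB hC hN hM hD pn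
  have half2 := Fam.half (F := F.m) hA hB hAB hC hN hM hD (Hn := Hn') pn'
  have sm1 := Fam.sm (F := F.toFam) hA hB hD pa pn
  have sm2 := Fam.sm (F := F.m) hA hB hD pa' (Hn := Hn') pn'
  have hmir : MirOK R2 atTop (Om2 A B) F.w := F.toFam.mirOK
  -- agreement
  have ag : Agree R2 atTop (Om2 A B) (fun n => ne (NR n) (F.toFam.Lo n 0 1) (F.toFam.Up n 0 1))
      (fun n => mirF (kM (F.O n) (F.O' n)) (F.w n) (ne (NR n) (F.m.Lo n 0 1) (F.m.Up n 0 1))) := by
    refine agree_mir (H := F.h) (D := fun n => nf (NR n) (Ha n - Hn n))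
      (D' := fun n => nf (NR n) (Ha' n - Hn' n)) hmir (fun K hK hKc => F.toFam.rg hA hB hK hKc) ?_
      sm1 sm2
    filter_upwards [F.mir, F.root, F.root', pn, pn', pa, pa'] with n h1 h2 h3 h4 h5 h6 h7 u v hu hv
    exact key_mir h1 h2 h3 (F.toFam.lo_spec n 0 1) (F.toFam.up_spec n 0 1) (F.m.lo_spec n 0 1)
      (F.m.up_spec n 0 1) h6 h4 h7 h5 hu hv
  -- the observable
  have hg : ∀ K ⊆ Om2 A B, IsCompact K → ∀ᶠ n in atTop, ∀ u v : ℤ × ℤ, lat u / (R2 n : ℂ) ∈ K →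
      lat v / (R2 n : ℂ) ∈ K → (NR n : ℂ) * (H n u - H n (z0 n)) - (NR n : ℂ) * (H n v - H n (z0 n)) =
        κ n * nf (NR n) (Hn n) u - κ n * nf (NR n) (Hn n) v := by
    intro K _ _
    refine Eventually.of_forall fun n u v _ _ => ?_
    have h1 : κ n * ph (k n) = 1 := inv_mul_cancel₀ (ph_ne _)
    unfold nf
    simp only [hHn]
    linear_combination ((NR n : ℂ) * (H n v - H n u)) * h1
  have half1' := half1.smul hκ hg
  refine ⟨_, _, _, _, _, _, _, _, Half.tracks (κ := fun n => κ n * kM (F.O n) (F.O' n))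
    (W := F.w) half1' half2 (fun n => by rw [norm_mul, hκ, norm_kM, one_mul]) hmir ?_ ?_⟩
  · intro K hK hKc
    filter_upwards [hg K hK hKc, F.toFam.rg hA hB hK hKc, F.mir, pn, pn'] with n h1 h2 h3 h4 h5 u v
      hu hv
    rw [h1 u v hu hv, ← mul_sub, f_mir h3 h4 h5 (NR n) (h2 u hu) (h2 v hv), mul_sub, mirF_mul, mirF_mul]
  · have := Agree_smul ag hκ
    simp only [mirF_mul] at this
    exact this

/-! ### The three environments of the rectangle shape -/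

variable {a b : ℕ} (ha : 0 < a) (hb : 0 < b)

lemma ev_n4 {c : ℕ} : ∀ᶠ n : ℕ in atTop, 2 * ((n4 n : ℕ) : ℤ) * c = 2 * n * c := by
  filter_upwards [eventually_ge_atTop 4] with n hn
  rw [n4_eq hn]

/-- the outsides of the environment 12 -/
noncomputable def fam12 : Fam2 a b where
  w n := 2 * ((n4 n : ℕ) : ℤ) * a
  h n := 2 * ((n4 n : ℕ) : ℤ) * b
  O n := o12 (parN ha hb n)
  O' n := o12' (parN ha hb n)
  hw := ev_n4
  hh := ev_n4
  root := Eventually.of_forall fun _ => root12 _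
  root' := Eventually.of_forall fun _ => root12' _
  far := Eventually.of_forall fun n => oFar12 _ (far_le n)
  far' := Eventually.of_forall fun n => oFar12' _ (far_le n)
  mir := Eventually.of_forall fun _ => outM12 _

/-- the outsides of the environment 23 -/
noncomputable def fam23 : Fam2 a b where
  w n := 2 * ((n4 n : ℕ) : ℤ) * a
  h n := 2 * ((n4 n : ℕ) : ℤ) * b
  O n := o23 (parN ha hb n)
  O' n := o23' (parN ha hb n)
  hw := ev_n4
  hh := ev_n4
  root := Eventually.of_forall fun _ => root23 _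
  root' := Eventually.of_forall fun _ => root23' _
  far := Eventually.of_forall fun n => oFar23 _ (far_le n)
  far' := Eventually.of_forall fun n => oFar23' _ (far_le n)
  mir := Eventually.of_forall fun _ => outM23 _

/-- the outsides of the environment 34 -/
noncomputable def fam34 : Fam2 a b where
  w n := 2 * ((n4 n : ℕ) : ℤ) * a
  h n := 2 * ((n4 n : ℕ) : ℤ) * b
  O n := o34 (parN ha hb n)
  O' n := o34' (parN ha hb n)
  hw := ev_n4
  hh := ev_n4
  root := Eventually.of_forall fun _ => root34 _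
  root' := Eventually.of_forall fun _ => root34' _
  far := Eventually.of_forall fun n => oFar34 _ (far_le n)
  far' := Eventually.of_forall fun n => oFar34' _ (far_le n)
  mir := Eventually.of_forall fun _ => outM34 _

lemma E_RS {n : ℕ} (hn : 4 ≤ n) {X : Fin 3 → Env} {H : Fin 3 → ℤ × ℤ → ℂ}
    (T : Tri3 (RS a b ha hb) n X H) (i : Fin 3) :
    (X i).E = RT 0 (2 * ((n4 n : ℕ) : ℤ) * a) 0 (2 * ((n4 n : ℕ) : ℤ) * b) := by
  rw [(T.planeK i).2.1, n4_eq hn]
  exact EE_RS (a := a) (b := b) (ha := ha) (hb := hb) (by omega)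

/-- **The tracks of the rectangle shape.** -/
theorem tracks3_RS (hAB : AB45) (hC : C45) (hN : N45) (hM : M45) (hD : DL45) :
    Tracks3 (RS a b ha hb) := by
  intro X H hT i
  rw [Om_RS ha hb]
  have key : ∀ F : Fam2 a b, (∀ᶠ n in atTop, GPrim (X n i) (H n i) ∧
      (X n i).E = RT 0 (F.w n) 0 (F.h n) ∧
      ∃ k : ℤ, ∀ c, (lab c ∈ RT 0 (F.w n) 0 (F.h n) ∨ plab c ∈ RT 0 (F.w n) 0 (F.h n)) →
        (XN (F.O n)).inc c = ph k * (X n i).inc c) →
      ∃ (e ff fl e' ff' fr : ℕ → ℤ × ℤ → ℂ) (V V' : ℕ → ℂ → ℤ × ℤ → ℂ),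
      Tracks (Rs fun h => h) atTop (Om2 a b) (fun h => nrm (RS a b ha hb).P h (H h i)) e ff fl e' ff'
        fr V V' := fun F hF =>
    F.tracks ha hb hAB hC hN hM hD (X := fun n => X n i) (H := fun n => H n i) hF
      (z0 := fun n => bp (RS a b ha hb).P n)
  match i with
  | 0 =>
    refine key (fam12 ha hb) ?_
    filter_upwards [hT, eventually_ge_atTop 4] with n h1 h2
    refine ⟨h1.prim 0, E_RS ha hb h2 h1 0, ?_⟩
    have e : ∀ N, N = n → IsEnv (RS a b ha hb) N (Pool.Agent.H33.FM.W12 (RS a b ha hb) N)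
        (Pool.Agent.H21.FM.r3 (RS a b ha hb) N)
        ((RS a b ha hb).k (RS a b ha hb).m3 + 1) (X n 0) := by
      rintro N rfl; exact h1.e12
    exact xn12 (parN ha hb n) (four_le n) (e _ (n4_eq h2))
  | 1 =>
    refine key (fam23 ha hb) ?_
    filter_upwards [hT, eventually_ge_atTop 4] with n h1 h2
    refine ⟨h1.prim 1, E_RS ha hb h2 h1 1, ?_⟩
    have e : ∀ N, N = n → IsEnv (RS a b ha hb) N (Pool.Agent.H21.FM.W0 (RS a b ha hb) N)
        (Pool.Agent.H21.FM.r1 (RS a b ha hb) N) ((RS a b ha hb).k 0 + 1) (X n 1) := by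
      rintro N rfl; exact h1.e23
    exact xn23 (parN ha hb n) (four_le n) (e _ (n4_eq h2))
  | 2 =>
    refine key (fam34 ha hb) ?_
    filter_upwards [hT, eventually_ge_atTop 4] with n h1 h2
    refine ⟨h1.prim 2, E_RS ha hb h2 h1 2, ?_⟩
    have e : ∀ N, N = n → IsEnv (RS a b ha hb) N (Pool.Agent.H33.FM.W34 (RS a b ha hb) N)
        (Pool.Agent.H21.FM.r1 (RS a b ha hb) N) ((RS a b ha hb).k 0 + 1) (X n 2) := by
      rintro N rfl; exact h1.e34
    exact xn34 (parN ha hb n) (four_le n) (e _ (n4_eq h2))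

/-- **Holomorphy of the limits for the rectangle shape.** -/
theorem hol3_RS (hAP : Pool.Agent.Q1.AP PlaneK) (hAB : AB45) (hC : C45) (hN : N45) (hM : M45)
    (hD : DL45) (hOD : ∀ m : Fin 4, ∀ᶠ h in atTop, OpenCase (RS a b ha hb) h m ∧
      DualCase (RS a b ha hb) h m) : Hol3 (RS a b ha hb) :=
  hol3_of_tracks hAP hOD (tracks3_RS ha hb hAB hC hN hM hD)

end Pool.Agent.H95.R45
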