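import Mathlib
import Pool.Agent.H95.R45.Tr3
import Pool.Agent.H95.R45.DL
import Pool.Agent.H21.FM.Final2
import Pool.Agent.H42.FM.Open
import Pool.Agent.H9.FM.Dual

set_option autoImplicit false
open Finset Filter Topology

/-!
# 45 degree rectangles: holomorphy of the limits and Cardy's formula for the rectangle shapes, from the
statements `AB45`, `C45`, `N45`, `M45` of the chapters A, B, C (`DL45` is proved in `DL.lean`)
-/

namespace Pool.Agent.H95.R45

open Pool.Agent.H21.FM (Hol3 qn)
open Pool.Agent.H57.FM (RS)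
open Pool.Agent.H19.RH (Cht lam)
open Pool.Agent.H13.Q1.Four (cardy)
open Pool.Agent.H14.FM (ic)

variable {a b : ℕ} (ha : 0 < a) (hb : 0 < b)

/-- **Holomorphy of the limits for the rectangle shape**; marks and the a priori bound are plugged in. -/
theorem hol3_rect (hAB : AB45) (hC : C45) (hN : N45) (hM : M45) :
    Hol3 (RS a b ha hb) := by
  refine hol3_RS ha hb Pool.Agent.Q1.M6c.ap_planeK hAB hC hN hM dl45 fun m => ?_
  filter_upwards [eventually_ge_atTop 10] with h hh
  exact ⟨Pool.Agent.H42.FM.openCase _ hh m, Pool.Agent.H9.FM.dualCase _ hh m⟩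

/-- **Cardy's formula for the rectangle shape.** -/
theorem cardy_rect (hAB : AB45) (hC : C45) (hN : N45) (hM : M45) {φ : ℂ → ℂ}
    (C : Cht (RS a b ha hb).P ic ic φ) : Tendsto (fun n => qn (RS a b ha hb) n) atTop
      (𝓝 (cardy (lam (RS a b ha hb).P ic ic (RS a b ha hb).m2 (RS a b ha hb).m3
        (RS a b ha hb).m4 φ))) :=
  Pool.Agent.H21.FM.cardyShape _ C (hol3_rect ha hb hAB hC hN hM)

end Pool.Agent.H95.R45
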