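import Pool.Agent.H95.R45.Main
import Pool.Agent.Q1.M6b.AB45
import Pool.Agent.Q1.M6e.FineF
import Pool.Agent.Q1.M6e.LRof
import Pool.Agent.Q1.M6e.NR45of
import Pool.Agent.Q1.M6e.Comb
import Pool.Agent.Q1.M6e.HV45of
import Pool.Agent.H14.R45.DispN
import Pool.Agent.H57.FM.R45

/-!
# Stage 1: everything put together, no hypotheses

`hol3_all` : the holomorphy of the limits for all rectangle shapes. `cardyRects` : Cardy's formula for
the rectangle shapes. `r45` : the limit for the rectangles with diagonal sides.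
-/

namespace Pool.Agent.H95.R45

open Pool.Agent Filter Topology Set

theorem dlF : Q1.M6e.DL45 := H14.R45.dl45' Q1.M6c.ap_planeK

theorem c45 : C45 := Q1.M6e.C45_of (Q1.M6e.LR45_of Q1.M6e.fine45 Q1.M6e.hv45) dlF

theorem n45 : N45 := Q1.M6e.N45_of (Q1.M6e.NR45_of Q1.M6e.fine45 Q1.M6e.hv45) dlF

theorem m45 : M45 := Q1.M6e.M45_of (Q1.M6e.NR45_of Q1.M6e.fine45 Q1.M6e.hv45) dlF

/-- **Stage 1: the limits are holomorphic, all rectangle shapes, all marks.** -/
theorem hol3_all (a b : ℕ) (ha : 0 < a) (hb : 0 < b) : H21.FM.Hol3 (H57.FM.RS a b ha hb) :=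
  hol3_rect ha hb Q1.M6b.AB.ab45 c45 n45 m45

/-- Cardy's formula for the rectangle shapes. -/
theorem cardyRects : H57.FM.CardyRects := H57.FM.cardyRects_of_hol3 hol3_all

/-- Cardy's formula for the rectangles with diagonal sides, mesh to zero. -/
theorem r45 {m : ℝ} (hm : m ∈ Ioo (0:ℝ) 1) {a b : ℝ} (ha : 0 < a) (hb : 0 < b)
    (hab : a / b = H57.FM.KE m / H57.FM.KE (1 - m)) :
    Tendsto (fun δ => H57.FM.PC (H57.FM.D45 a b) (H57.FM.S45 b 0) (H57.FM.S45 b a) δ) (𝓝[>] 0)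
      (𝓝 (H13.Q1.Four.cardy (1 - m))) :=
  H57.FM.R45_of_hol3 hol3_all hm ha hb hab

end Pool.Agent.H95.R45
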